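import Pool.Agent.KMN.RcsB
import Pool.Agent.KMR.DecE

/-! A decoding problem that has a solution if and only if a sum of products of three linear forms takes the
value one at one of the blocks, for some choice of further coordinates. -/

namespace Pool.Agent.KMN

open Finset Pool.Agent.KE Pool.Agent.KH Pool.Agent.KMR
open Pool.Agent.KMQ (zb_true zb_false zb_sq zb_inj sum_window ob zb_ob)

/-- the row with a linear form and the columns with the bit `t` -/
def frn (m M : ℕ) (F : ℕ → Bool) (t s j : ℕ) : Bool :=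
  (decide (m + M ≤ j ∧ j < m + M + M) && F (j - (m + M))) ||
    (decide (m + 2 * M + 8 * s ≤ j ∧ j < m + 2 * M + 8 * s + 8) && (j - (m + 2 * M + 8 * s)).testBit t)

/-- the instance without blocks -/
def insDn (m M K : ℕ) (α β γ : ℕ → ℕ → Bool) : Ins where
  A i j :=
    if i < 1 then decide (0 ≤ j ∧ j < 0 + m) && true
    else if i < M + 1 then decide (j = m + (i - 1)) || decide (j = m + M + (i - 1))
    else if i < M + 1 + K then
      decide (m + 2 * M + 8 * (i - (M + 1)) ≤ j ∧ j < m + 2 * M + 8 * (i - (M + 1)) + 8) && true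
    else if i < M + m + 1 + K then decide (j = m + M + (i - (M + 1 + K)))
    else if i < M + m + 1 + 2 * K then
      frn m M (α (i - (M + m + 1 + K))) 0 (i - (M + m + 1 + K)) j
    else if i < M + m + 1 + 3 * K then
      frn m M (β (i - (M + m + 1 + 2 * K))) 1 (i - (M + m + 1 + 2 * K)) j
    else if i < M + m + 1 + 4 * K then
      frn m M (γ (i - (M + m + 1 + 3 * K))) 2 (i - (M + m + 1 + 3 * K)) j
    else if i < M + m + 2 + 4 * K then
      decide (m + 2 * M ≤ j ∧ j < m + 2 * M + 8 * K) && decide ((j - (m + 2 * M)) % 8 = 7)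
    else false
  B _ _ := false
  C _ _ := false
  r i := decide (i < M + 1 + K ∨ i = M + m + 1 + 4 * K)
  s j := decide (j < M + 1 + K)

section
variable {m M K n : ℕ} (α β γ : ℕ → ℕ → Bool) (X : Fin m → Fin m → Bool) (x : ℕ → Bool)

theorem mv_frn {R : ℕ → ℕ → Bool} {i t s : ℕ} {F : ℕ → Bool} (h : ∀ j, R i j = frn m M F t s j)
    (hn : m + 2 * M + 8 * s + 8 ≤ n) :
    mv n R x i = lw M F (fun l => x (m + M + l)) +
      ∑ c ∈ range 8, zb (c.testBit t) * zb (x (m + 2 * M + 8 * s + c)) := by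
  rw [mv_or x (R := R) (P := fun _ j => decide (m + M ≤ j ∧ j < m + M + M) && F (j - (m + M)))
    (Q := fun _ j => decide (m + 2 * M + 8 * s ≤ j ∧ j < m + 2 * M + 8 * s + 8) &&
      (fun c => c.testBit t) (j - (m + 2 * M + 8 * s))) h]
  · rw [mv_win x (R := fun _ j => decide (m + M ≤ j ∧ j < m + M + M) && F (j - (m + M))) (F := F)
      (fun j => rfl) (by omega),
      mv_win x (R := fun _ j => decide (m + 2 * M + 8 * s ≤ j ∧ j < m + 2 * M + 8 * s + 8) &&
      (fun c => c.testBit t) (j - (m + 2 * M + 8 * s))) (F := fun c => c.testBit t) (fun j => rfl) hn]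
    rfl
  · intro j
    rintro ⟨h1, h2⟩
    simp only [Bool.and_eq_true, decide_eq_true_iff] at h1 h2
    omega

theorem Dn0 (_hm : 1 ≤ m) (hn : m + 2 * M + 8 * K ≤ n) :
    mv n ((insDn m M K α β γ).set (M + 1 + K) 0 X).A x 0 = ∑ b ∈ range m, zb (x b) := by
  rw [mv_set X x (by omega), mv_win x (a := 0) (k := m) (F := fun _ => true) (fun j => by
    unfold insDn; simp only; rw [if_pos (by omega)]) (by omega)]
  refine Finset.sum_congr rfl fun s _ => ?_
  rw [zb_true, one_mul, zero_add]

theorem Dn1 (hn : m + 2 * M + 8 * K ≤ n) {l : ℕ} (hl : l < M) :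
    mv n ((insDn m M K α β γ).set (M + 1 + K) 0 X).A x (1 + l) =
      zb (x (m + l)) + zb (x (m + M + l)) := by
  rw [mv_set X x (by omega)]
  unfold mv
  rw [Finset.sum_congr rfl fun j _ => by
    unfold insDn; simp only
    rw [if_neg (by omega), if_pos (by omega), Nat.add_sub_cancel_left],
    row_two x (by omega) (by omega) (by omega)]

theorem Dn2 (hn : m + 2 * M + 8 * K ≤ n) {s : ℕ} (hs : s < K) :
    mv n ((insDn m M K α β γ).set (M + 1 + K) 0 X).A x (M + 1 + s) =
      ∑ c ∈ range 8, zb (x (m + 2 * M + 8 * s + c)) := by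
  rw [mv_set X x (by omega), mv_win x (a := m + 2 * M + 8 * s) (k := 8) (F := fun _ => true) (fun j => by
    unfold insDn; simp only
    rw [if_neg (by omega), if_neg (by omega), if_pos (by omega), Nat.add_sub_cancel_left]) (by omega)]
  refine Finset.sum_congr rfl fun s _ => ?_
  rw [zb_true, one_mul]

theorem Dn3 (hM : m ≤ M) (hn : m + 2 * M + 8 * K ≤ n) {l : ℕ} (hl : l < m) :
    mv n ((insDn m M K α β γ).set (M + 1 + K) 0 X).A x (M + 1 + K + l) =
      ∑ b : Fin m, zb (X b ⟨l, hl⟩) * zb (x b) + zb (x (m + M + l)) := by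
  have hr : ∀ j, (insDn m M K α β γ).A (M + 1 + K + l) j = decide (j = m + M + l) := fun j => by
    unfold insDn; simp only
    rw [if_neg (by omega), if_neg (by omega), if_neg (by omega), if_pos (by omega), Nat.add_sub_cancel_left]
  rw [mv_block' X x hl (by omega) (fun j h1 h2 => by rw [hr, decide_eq_false (by omega)]),
    mv_one x hr (by omega)]
  congr 1
  refine Finset.sum_congr rfl fun b _ => ?_
  rw [zero_add]

theorem Dn4 (hn : m + 2 * M + 8 * K ≤ n) {s : ℕ} (hs : s < K) :
    mv n ((insDn m M K α β γ).set (M + 1 + K) 0 X).A x (M + m + 1 + K + s) =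
      lw M (α s) (fun l => x (m + M + l)) +
        ∑ c ∈ range 8, zb (c.testBit 0) * zb (x (m + 2 * M + 8 * s + c)) := by
  rw [mv_set X x (by omega), mv_frn x (t := 0) (s := s) (F := α s) (fun j => by
    unfold insDn; simp only
    rw [if_neg (by omega), if_neg (by omega), if_neg (by omega), if_neg (by omega), if_pos (by omega),
      Nat.add_sub_cancel_left]) (by omega)]

theorem Dn5 (hn : m + 2 * M + 8 * K ≤ n) {s : ℕ} (hs : s < K) :
    mv n ((insDn m M K α β γ).set (M + 1 + K) 0 X).A x (M + m + 1 + 2 * K + s) =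
      lw M (β s) (fun l => x (m + M + l)) +
        ∑ c ∈ range 8, zb (c.testBit 1) * zb (x (m + 2 * M + 8 * s + c)) := by
  rw [mv_set X x (by omega), mv_frn x (t := 1) (s := s) (F := β s) (fun j => by
    unfold insDn; simp only
    rw [if_neg (by omega), if_neg (by omega), if_neg (by omega), if_neg (by omega), if_neg (by omega),
      if_pos (by omega), Nat.add_sub_cancel_left]) (by omega)]

theorem Dn6 (hn : m + 2 * M + 8 * K ≤ n) {s : ℕ} (hs : s < K) :
    mv n ((insDn m M K α β γ).set (M + 1 + K) 0 X).A x (M + m + 1 + 3 * K + s) =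
      lw M (γ s) (fun l => x (m + M + l)) +
        ∑ c ∈ range 8, zb (c.testBit 2) * zb (x (m + 2 * M + 8 * s + c)) := by
  rw [mv_set X x (by omega), mv_frn x (t := 2) (s := s) (F := γ s) (fun j => by
    unfold insDn; simp only
    rw [if_neg (by omega), if_neg (by omega), if_neg (by omega), if_neg (by omega), if_neg (by omega),
      if_neg (by omega), if_pos (by omega), Nat.add_sub_cancel_left]) (by omega)]

theorem Dn7 (hn : m + 2 * M + 8 * K ≤ n) :
    mv n ((insDn m M K α β γ).set (M + 1 + K) 0 X).A x (M + m + 1 + 4 * K) =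
      ∑ s ∈ range K, zb (x (m + 2 * M + 8 * s + 7)) := by
  rw [mv_set X x (by omega), mv_win x (a := m + 2 * M) (k := 8 * K) (F := fun c => decide (c % 8 = 7))
    (fun j => by
    unfold insDn; simp only
    rw [if_neg (by omega), if_neg (by omega), if_neg (by omega), if_neg (by omega), if_neg (by omega),
      if_neg (by omega), if_neg (by omega), if_pos (by omega)]) (by omega), sum8]
  refine Finset.sum_congr rfl fun s _ => ?_
  rw [Finset.sum_eq_single 7]
  · rw [decide_eq_true (by omega), zb_true, one_mul, ← add_assoc]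
  · intro c hc h7
    have := mem_range.1 hc
    rw [decide_eq_false (by omega), zb_false, zero_mul]
  · intro hc
    exact absurd (mem_range.2 (by omega)) hc

theorem Dn8 {i : ℕ} (h : M + m + 2 + 4 * K ≤ i) :
    mv n ((insDn m M K α β γ).set (M + 1 + K) 0 X).A x i = 0 := by
  rw [mv_set X x (by omega)]
  exact mv_zero x fun j => by
    unfold insDn; simp only
    rw [if_neg (by omega), if_neg (by omega), if_neg (by omega), if_neg (by omega), if_neg (by omega),
      if_neg (by omega), if_neg (by omega), if_neg (by omega)]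

/-- the equations in terms of their parts -/
structure DSolN (m M K : ℕ) (α β γ : ℕ → ℕ → Bool) (X : Fin m → Fin m → Bool) (x : ℕ → Bool) :
    Prop where
  e0 : ∑ b ∈ range m, zb (x b) = 1
  e1 : ∀ l < M, zb (x (m + l)) + zb (x (m + M + l)) = 1
  e2 : ∀ s < K, ∑ c ∈ range 8, zb (x (m + 2 * M + 8 * s + c)) = 1
  e3 : ∀ l (hl : l < m), ∑ b : Fin m, zb (X b ⟨l, hl⟩) * zb (x b) + zb (x (m + M + l)) = 0
  e4 : ∀ s < K, lw M (α s) (fun l => x (m + M + l)) +
    ∑ c ∈ range 8, zb (c.testBit 0) * zb (x (m + 2 * M + 8 * s + c)) = 0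
  e5 : ∀ s < K, lw M (β s) (fun l => x (m + M + l)) +
    ∑ c ∈ range 8, zb (c.testBit 1) * zb (x (m + 2 * M + 8 * s + c)) = 0
  e6 : ∀ s < K, lw M (γ s) (fun l => x (m + M + l)) +
    ∑ c ∈ range 8, zb (c.testBit 2) * zb (x (m + 2 * M + 8 * s + c)) = 0
  e7 : ∑ s ∈ range K, zb (x (m + 2 * M + 8 * s + 7)) = 1

theorem dsolN_iff (hm : 1 ≤ m) (hM : m ≤ M) (hn : m + 2 * M + 8 * K ≤ n)
    (hn2 : M + m + 2 + 4 * K ≤ n) :
    (∀ i < n, mv n ((insDn m M K α β γ).set (M + 1 + K) 0 X).A x i =
      zb ((insDn m M K α β γ).r i)) ↔ DSolN m M K α β γ X x := by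
  have r1 : ∀ i, i < M + 1 + K → zb ((insDn m M K α β γ).r i) = 1 := fun i hi => by
    unfold insDn; simp only; rw [decide_eq_true (Or.inl hi), zb_true]
  have r0 : ∀ i, M + 1 + K ≤ i → i ≠ M + m + 1 + 4 * K → zb ((insDn m M K α β γ).r i) = 0 :=
    fun i hi h => by
    unfold insDn; simp only; rw [decide_eq_false (by omega), zb_false]
  have r7 : zb ((insDn m M K α β γ).r (M + m + 1 + 4 * K)) = 1 := by
    unfold insDn; simp only; rw [decide_eq_true (Or.inr trivial), zb_true]
  constructor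
  · intro h
    refine ⟨?_, ?_, ?_, ?_, ?_, ?_, ?_, ?_⟩
    · rw [← Dn0 α β γ X x hm hn, h 0 (by omega), r1 _ (by omega)]
    · intro l hl
      rw [← Dn1 α β γ X x hn hl, h _ (by omega), r1 _ (by omega)]
    · intro s hs
      rw [← Dn2 α β γ X x hn hs, h _ (by omega), r1 _ (by omega)]
    · intro l hl
      rw [← Dn3 α β γ X x hM hn hl, h _ (by omega), r0 _ (by omega) (by omega)]
    · intro s hs
      rw [← Dn4 α β γ X x hn hs, h _ (by omega), r0 _ (by omega) (by omega)]
    · intro s hs
      rw [← Dn5 α β γ X x hn hs, h _ (by omega), r0 _ (by omega) (by omega)]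
    · intro s hs
      rw [← Dn6 α β γ X x hn hs, h _ (by omega), r0 _ (by omega) (by omega)]
    · rw [← Dn7 α β γ X x hn, h _ (by omega), r7]
  · intro h i hi
    by_cases c0 : i = 0
    · subst c0
      rw [Dn0 α β γ X x hm hn, r1 _ (by omega)]
      exact h.e0
    by_cases c1 : i < M + 1
    · obtain ⟨l, rfl⟩ : ∃ l, i = 1 + l := ⟨i - 1, by omega⟩
      rw [Dn1 α β γ X x hn (by omega), r1 _ (by omega)]
      exact h.e1 l (by omega)
    by_cases c2 : i < M + 1 + K
    · obtain ⟨s, rfl⟩ : ∃ s, i = M + 1 + s := ⟨i - (M + 1), by omega⟩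
      rw [Dn2 α β γ X x hn (by omega), r1 _ (by omega)]
      exact h.e2 s (by omega)
    by_cases c3 : i < M + m + 1 + K
    · obtain ⟨l, rfl⟩ : ∃ l, i = M + 1 + K + l := ⟨i - (M + 1 + K), by omega⟩
      rw [Dn3 α β γ X x hM hn (by omega), r0 _ (by omega) (by omega)]
      exact h.e3 l (by omega)
    by_cases c4 : i < M + m + 1 + 2 * K
    · obtain ⟨s, rfl⟩ : ∃ s, i = M + m + 1 + K + s := ⟨i - (M + m + 1 + K), by omega⟩
      rw [Dn4 α β γ X x hn (by omega), r0 _ (by omega) (by omega)]
      exact h.e4 s (by omega)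
    by_cases c5 : i < M + m + 1 + 3 * K
    · obtain ⟨s, rfl⟩ : ∃ s, i = M + m + 1 + 2 * K + s := ⟨i - (M + m + 1 + 2 * K), by omega⟩
      rw [Dn5 α β γ X x hn (by omega), r0 _ (by omega) (by omega)]
      exact h.e5 s (by omega)
    by_cases c6 : i < M + m + 1 + 4 * K
    · obtain ⟨s, rfl⟩ : ∃ s, i = M + m + 1 + 3 * K + s := ⟨i - (M + m + 1 + 3 * K), by omega⟩
      rw [Dn6 α β γ X x hn (by omega), r0 _ (by omega) (by omega)]
      exact h.e6 s (by omega)
    by_cases c7 : i = M + m + 1 + 4 * K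
    · subst c7
      rw [Dn7 α β γ X x hn, r7]
      exact h.e7
    · rw [Dn8 (m := m) (M := M) (K := K) (n := n) α β γ X x (i := i) (by omega), r0 _ (by omega) c7]

end

/-! ### The equivalence -/

/-- the weight splits into groups -/
theorem wtN_split (m M K : ℕ) (x : ℕ → Bool) : wt (m + 2 * M + 8 * K) x =
    wt m x + ∑ l ∈ range M, ((x (m + l)).toNat + (x (m + M + l)).toNat) +
      ∑ s ∈ range K, wt 8 (fun c => x (m + 2 * M + 8 * s + c)) := by
  rw [show m + 2 * M + 8 * K = (m + M) + M + 8 * K by ring, wt_add, wt_add, wt_add,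
    Finset.sum_add_distrib]
  have h1 : wt (8 * K) (fun j => x (m + M + M + j)) =
      ∑ s ∈ range K, wt 8 (fun c => x (m + 2 * M + 8 * s + c)) := by
    unfold wt
    rw [sum8]
    refine Finset.sum_congr rfl fun s _ => Finset.sum_congr rfl fun c _ => ?_
    simp only
    rw [show m + M + M + (8 * s + c) = m + 2 * M + 8 * s + c by ring]
  rw [h1]
  unfold wt
  ring

/-- a light solution has one one in each group -/
theorem groupsN {m M K n : ℕ} {x : ℕ → Bool} (hn : m + 2 * M + 8 * K ≤ n) (hw : wt n x ≤ M + 1 + K)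
    (h0 : ∑ b ∈ range m, zb (x b) = 1) (h1 : ∀ l < M, zb (x (m + l)) + zb (x (m + M + l)) = 1)
    (h2 : ∀ s < K, ∑ c ∈ range 8, zb (x (m + 2 * M + 8 * s + c)) = 1) :
    wt m x = 1 ∧ ∀ s < K, wt 8 (fun c => x (m + 2 * M + 8 * s + c)) = 1 := by
  have h3 := (wt_mono hn x).trans hw
  rw [wtN_split] at h3
  have p0 : 1 ≤ wt m x := wt_pos h0
  have p1 : M ≤ ∑ l ∈ range M, ((x (m + l)).toNat + (x (m + M + l)).toNat) := by
    calc M = ∑ _l ∈ range M, 1 := by simp
      _ ≤ _ := Finset.sum_le_sum fun l hl => by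
        have := h1 l (mem_range.1 hl)
        revert this
        generalize x (m + l) = a
        generalize x (m + M + l) = b
        cases a <;> cases b <;> decide
  have p2 : ∀ s < K, 1 ≤ wt 8 (fun c => x (m + 2 * M + 8 * s + c)) := fun s hs => wt_pos (h2 s hs)
  have p3 : K ≤ ∑ s ∈ range K, wt 8 (fun c => x (m + 2 * M + 8 * s + c)) := by
    calc K = ∑ _s ∈ range K, 1 := by simp
      _ ≤ _ := Finset.sum_le_sum fun s hs => p2 s (mem_range.1 hs)
  refine ⟨by omega, fun s hs => ?_⟩
  by_contra hc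
  have hc2 : 2 ≤ wt 8 (fun c => x (m + 2 * M + 8 * s + c)) := by
    have := p2 s hs
    omega
  have p4 : K + 1 ≤ ∑ s ∈ range K, wt 8 (fun c => x (m + 2 * M + 8 * s + c)) := by
    have h4 : ∑ _s ∈ range K, 1 < ∑ s ∈ range K, wt 8 (fun c => x (m + 2 * M + 8 * s + c)) :=
      Finset.sum_lt_sum (fun s hs => p2 s (mem_range.1 hs)) ⟨s, mem_range.2 hs, by omega⟩
    simpa using h4
  omega

/-- the solution that selects the block `b0` -/
def solDn (m M : ℕ) (α β γ : ℕ → ℕ → Bool) (b0 : ℕ) (w : ℕ → Bool) (K j : ℕ) : Bool :=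
  if j < m then decide (j = b0)
  else if j < m + M then !w (j - m)
  else if j < m + 2 * M then w (j - (m + M))
  else if j < m + 2 * M + 8 * K then
    decide ((j - (m + 2 * M)) % 8 = cn (ob (lw M (α ((j - (m + 2 * M)) / 8)) w))
      (ob (lw M (β ((j - (m + 2 * M)) / 8)) w)) (ob (lw M (γ ((j - (m + 2 * M)) / 8)) w)))
  else false

/-- **The decoding problem with the blocks `X`.** -/
theorem decN_sys {m M K n : ℕ} (hm : 1 ≤ m) (hM : m ≤ M) (hn : m + 2 * M + 8 * K ≤ n)
    (hn2 : M + m + 2 + 4 * K ≤ n) (α β γ : ℕ → ℕ → Bool) (X : Fin m → Fin m → Bool) :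
    (∃ x : ℕ → Bool, (∀ i < n, mv n ((insDn m M K α β γ).set (M + 1 + K) 0 X).A x i =
        zb ((insDn m M K α β γ).r i)) ∧ wt n x ≤ M + 1 + K) ↔
      ∃ (b : Fin m) (w : ℕ → Bool), (∀ l : Fin m, w l = X b l) ∧
        ∑ s ∈ range K, lw M (α s) w * lw M (β s) w * lw M (γ s) w = 1 := by
  constructor
  · rintro ⟨x, hx, hw⟩
    have h := (dsolN_iff α β γ X x hm hM hn hn2).1 hx
    obtain ⟨g0, g1⟩ := groupsN hn hw h.e0 h.e1 h.e2
    obtain ⟨i0, hi0, hu⟩ := wt_one g0
    refine ⟨⟨i0, hi0⟩, fun l => x (m + M + l), ?_, ?_⟩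
    · intro l
      have h3 := h.e3 l l.2
      rw [Finset.sum_eq_single (⟨i0, hi0⟩ : Fin m)] at h3
      · have h5 : x i0 = true := by
          rw [hu i0 hi0]
          simp
        simp only at h3
        rw [h5, zb_true, mul_one] at h3
        have e : ∀ u v : ZMod 2, u + v = 0 → u = v := by decide
        exact (zb_inj.1 (e _ _ h3)).symm
      · intro b _ hb
        rw [hu b b.2, decide_eq_false (fun hc => hb (Fin.ext hc)), zb_false, mul_zero]
      · intro hc
        exact absurd (Finset.mem_univ _) hc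
    · rw [← h.e7]
      refine Finset.sum_congr rfl fun s hs => ?_
      have hs' := mem_range.1 hs
      exact eight (g1 s hs') (h.e4 s hs') (h.e5 s hs') (h.e6 s hs')
  · rintro ⟨b, w, hwX, hb⟩
    obtain ⟨x, hx⟩ : ∃ x, x = solDn m M α β γ b w K := ⟨_, rfl⟩
    obtain ⟨A, hA⟩ : ∃ A : ℕ → Bool, A = fun s => ob (lw M (α s) w) := ⟨_, rfl⟩
    obtain ⟨B, hB⟩ : ∃ B : ℕ → Bool, B = fun s => ob (lw M (β s) w) := ⟨_, rfl⟩
    obtain ⟨C, hC⟩ : ∃ C : ℕ → Bool, C = fun s => ob (lw M (γ s) w) := ⟨_, rfl⟩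
    have zA : ∀ s, zb (A s) = lw M (α s) w := fun s => by rw [hA]; exact zb_ob _
    have zB : ∀ s, zb (B s) = lw M (β s) w := fun s => by rw [hB]; exact zb_ob _
    have zC : ∀ s, zb (C s) = lw M (γ s) w := fun s => by rw [hC]; exact zb_ob _
    have xu : ∀ j < m, x j = decide (j = (b : ℕ)) := by
      intro j hj
      rw [hx]
      unfold solDn
      rw [if_pos hj]
    have x0 : ∀ l < M, x (m + l) = !w l := by
      intro l hl
      rw [hx]
      unfold solDn
      rw [if_neg (by omega), if_pos (by omega), Nat.add_sub_cancel_left]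
    have x1 : ∀ l < M, x (m + M + l) = w l := by
      intro l hl
      rw [hx]
      unfold solDn
      rw [if_neg (by omega), if_neg (by omega), if_pos (by omega), Nat.add_sub_cancel_left]
    have x2 : ∀ s < K, ∀ c < 8, x (m + 2 * M + 8 * s + c) = decide (c = cn (A s) (B s) (C s)) := by
      intro s hs c hc
      rw [hx, hA, hB, hC]
      unfold solDn
      rw [if_neg (by omega), if_neg (by omega), if_neg (by omega), if_pos (by omega),
        show (m + 2 * M + 8 * s + c - (m + 2 * M)) % 8 = c by omega,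
        show (m + 2 * M + 8 * s + c - (m + 2 * M)) / 8 = s by omega]
    have x3 : ∀ j, m + 2 * M + 8 * K ≤ j → x j = false := by
      intro j hj
      rw [hx]
      unfold solDn
      rw [if_neg (by omega), if_neg (by omega), if_neg (by omega), if_neg (by omega)]
    have hlw : ∀ F : ℕ → Bool, lw M F (fun l => x (m + M + l)) = lw M F w :=
      fun F => lw_congr fun l hl => x1 l hl
    have hb2 := b.2
    have w0 : wt m x = 1 := wt_single hb2 xu
    have w8 : ∀ s < K, wt 8 (fun c => x (m + 2 * M + 8 * s + c)) = 1 := fun s hs =>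
      wt_single (cn_lt (A s) (B s) (C s)) (fun c hc => x2 s hs c hc)
    have s8 : ∀ s < K, ∀ t, ∑ c ∈ range 8, zb (c.testBit t) * zb (x (m + 2 * M + 8 * s + c)) =
        zb ((cn (A s) (B s) (C s)).testBit t) := by
      intro s hs t
      rw [Finset.sum_eq_single (cn (A s) (B s) (C s))]
      · rw [x2 s hs _ (cn_lt _ _ _), decide_eq_true rfl, zb_true, mul_one]
      · intro c hc hci
        rw [x2 s hs c (mem_range.1 hc), decide_eq_false hci, zb_false, mul_zero]
      · intro hc
        exact absurd (mem_range.2 (cn_lt _ _ _)) hc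
    have dbl : ∀ u : ZMod 2, u + u = 0 := by decide
    refine ⟨x, (dsolN_iff α β γ X x hm hM hn hn2).2 ⟨?_, ?_, ?_, ?_, ?_, ?_, ?_, ?_⟩, ?_⟩
    · rw [← wt_zb, w0]
      rfl
    · intro l hl
      rw [x0 l hl, x1 l hl]
      generalize w l = a
      cases a <;> decide
    · intro s hs
      rw [← wt_zb, w8 s hs]
      rfl
    · intro l hl
      rw [Finset.sum_eq_single b, xu b b.2, decide_eq_true rfl, zb_true, mul_one, x1 l (by omega),
        ← hwX ⟨l, hl⟩]
      · exact dbl _
      · intro c _ hc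
        rw [xu c c.2, decide_eq_false (fun h => hc (Fin.ext h)), zb_false, mul_zero]
      · intro hc
        exact absurd (Finset.mem_univ _) hc
    · intro s hs
      rw [hlw, s8 s hs, (cn_bits _ _ _).1, zA]
      exact dbl _
    · intro s hs
      rw [hlw, s8 s hs, (cn_bits _ _ _).2.1, zB]
      exact dbl _
    · intro s hs
      rw [hlw, s8 s hs, (cn_bits _ _ _).2.2, zC]
      exact dbl _
    · rw [← hb]
      refine Finset.sum_congr rfl fun s hs => ?_
      rw [x2 s (mem_range.1 hs) 7 (by omega), cn_seven, zA, zB, zC]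
    · have hsplit : wt n x = wt (m + 2 * M + 8 * K) x := by
        obtain ⟨d, rfl⟩ : ∃ d, n = m + 2 * M + 8 * K + d := ⟨n - (m + 2 * M + 8 * K), by omega⟩
        rw [wt_add]
        have : wt d (fun j => x (m + 2 * M + 8 * K + j)) = 0 := by
          unfold wt
          refine Finset.sum_eq_zero fun j _ => ?_
          simp only
          rw [x3 _ (by omega)]
          rfl
        rw [this, add_zero]
      rw [hsplit, wtN_split, w0]
      have e1 : ∑ l ∈ range M, ((x (m + l)).toNat + (x (m + M + l)).toNat) = M := by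
        rw [Finset.sum_congr rfl fun l hl => by
          rw [x0 l (mem_range.1 hl), x1 l (mem_range.1 hl), show (!w l).toNat + (w l).toNat = 1 by
            generalize w l = a; cases a <;> rfl]]
        simp
      have e2 : ∑ s ∈ range K, wt 8 (fun c => x (m + 2 * M + 8 * s + c)) = K := by
        rw [Finset.sum_congr rfl fun s hs => w8 s (mem_range.1 hs)]
        simp
      rw [e1, e2]
      omega

/-- **The complement of maximum likelihood decoding is a conjunction of hash conditions.** -/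
theorem dec_ndblocks : NDBlocks (fun y => ¬ Dec y) := by
  intro N hN
  have hb := bm_le N
  refine ⟨pos N (bm N) (2 * bm N + 1 + (4 * bm N + 1)) 0 (by omega) (by omega),
    fun b b' l l' => pos_inj _ _, ?_⟩
  intro r hr u v c σ
  set I := insDn (bm N) (2 * bm N) (4 * bm N + 1) (aF u σ) (aF v σ) (cF (bm N) c σ) with hI
  refine ⟨word N I, fun X => ?_⟩
  show ¬ Dec _ ↔ _
  rw [wd_word, dec_iff]
  have h := decN_sys (n := dim N) (M := 2 * bm N) (K := 4 * bm N + 1) hN (by omega) (by omega)
    (by omega) (aF u σ) (aF v σ) (cF (bm N) c σ) X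
  have hs : ((range (dim N)).filter fun j =>
      (I.set (2 * bm N + 1 + (4 * bm N + 1)) 0 X).s j = true).card = 2 * bm N + 1 + (4 * bm N + 1) := by
    have : ((range (dim N)).filter fun j => (I.set (2 * bm N + 1 + (4 * bm N + 1)) 0 X).s j = true) =
        range (2 * bm N + 1 + (4 * bm N + 1)) := by
      ext j
      rw [mem_filter, mem_range, mem_range, hI]
      unfold Ins.set insDn
      simp only [decide_eq_true_iff]
      omega
    rw [this, card_range]
  have h' : (∃ x : ℕ → Bool, (∀ i < dim N,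
      mv (dim N) (I.set (2 * bm N + 1 + (4 * bm N + 1)) 0 X).A x i =
        zb ((I.set (2 * bm N + 1 + (4 * bm N + 1)) 0 X).r i)) ∧
      ((range (dim N)).filter fun j => x j = true).card ≤
        ((range (dim N)).filter fun j =>
          (I.set (2 * bm N + 1 + (4 * bm N + 1)) 0 X).s j = true).card) ↔
      ∃ (b : Fin (bm N)) (w : ℕ → Bool), (∀ l : Fin (bm N), w l = X b l) ∧
        ∑ s ∈ range (4 * bm N + 1), lw (2 * bm N) (aF u σ s) w * lw (2 * bm N) (aF v σ s) w *
          lw (2 * bm N) (cF (bm N) c σ s) w = 1 := by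
    rw [← h]
    refine exists_congr fun x => and_congr Iff.rfl ?_
    rw [hs, wt_eq]
  constructor
  · intro h1 b
    by_contra hc
    obtain ⟨w, hw, hw1⟩ := (hash_iff u v c σ (M := 2 * bm N) (by omega) (X b)).2 hc
    exact h1 (h'.2 ⟨b, w, hw, hw1⟩)
  · intro h1 h2
    obtain ⟨b, w, hw, hw1⟩ := h'.1 h2
    exact (hash_iff u v c σ (M := 2 * bm N) (by omega) (X b)).1 ⟨w, hw, hw1⟩ (h1 b)

end Pool.Agent.KMN
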