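import Pool.Agent.KMN.ItB

/-! The iterated map and its complement say, on a subcube, that all blocks have a given hash value. -/

namespace Pool.Agent.KMN

open Finset Pool.Agent.KE Pool.Agent.KH Pool.Agent.KMR
open Pool.Agent.KMQ (zb_true zb_false zb_sq sum_window ob zb_ob)

/-- a vector as a function on numbers -/
def ev {r : ℕ} (σ : Fin r → Bool) (j : ℕ) : Bool := if h : j < r then σ ⟨j, h⟩ else false

theorem lw_exN {K r : ℕ} (c : Fin r → Fin K → Bool) (j : Fin r) (w : ℕ → Bool) :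
    lw K (ex c j) w = ∑ i : Fin K, zb (c j i) * zb (w i) := by
  unfold lw
  rw [Finset.sum_range]
  refine Finset.sum_congr rfl fun i _ => ?_
  unfold ex
  rw [dif_pos ⟨j.2, i.2⟩]

theorem dv_iff {m K r : ℕ} (X : Fin m → Fin m → Bool) (u v : Fin K → Fin m → Bool)
    (c : Fin r → Fin K → Bool) (σ : Fin r → Bool) (b : Fin m) (j : Fin r) :
    dv X K (ex u) (ex v) (ex c) (ev σ) b j = 0 ↔ hs u v c (X b) j = zb (σ j) := by
  have h1 : lw K (ex c j) (zv m (ex u) (ex v) (Xe X b)) = hs u v c (X b) j := by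
    rw [lw_exN]
    unfold hs
    refine Finset.sum_congr rfl fun i _ => ?_
    have hw : ∀ l : Fin m, Xe X b l = X b l := by
      intro l
      unfold Xe
      rw [dif_pos ⟨b.2, l.2⟩]
    unfold zv
    rw [zb_ob, lw_ex u (X b) (Xe X b) hw i, lw_ex v (X b) (Xe X b) hw i]
  have h2 : ev σ j = σ j := by
    unfold ev
    rw [dif_pos j.2]
  unfold dv
  rw [h1, h2, if_pos b.2, mul_one]
  exact (show ∀ a b : ZMod 2, a + b = 0 ↔ b = a by decide) _ _

theorem it_run {t : ℕ → ℕ} (ht : ∀ n, n ≤ t n) {N m K r : ℕ} (hm : 1 ≤ m)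
    (hn : 2 * m + 6 + K + 2 * r ≤ dim N) (u v : Fin K → Fin m → Bool) (c : Fin r → Fin K → Bool)
    (σ : Fin r → Bool) (neg : Bool) (X : Fin m → Fin m → Bool) :
    It t (List.ofFn (wd (pos N m (m + 2) 2 (by omega) (by omega))
      (word N (insP m K r (dim N) (ex u) (ex v) (ex c) (ev σ) neg)) X)) ↔
        xor neg (decide (∀ b, ∀ j, hs u v c (X b) j = zb (σ j))) = true := by
  rw [wd_word]
  unfold It
  rw [List.length_ofFn]
  obtain ⟨y, hy⟩ : ∃ y, y = List.ofFn (word N
    ((insP m K r (dim N) (ex u) (ex v) (ex c) (ev σ) neg).set (m + 2) 2 X)) := ⟨_, rfl⟩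
  have hrun : Run m K r (dim N) (ex u) (ex v) (ex c) (ev σ) neg X
      (fun τ => (step y)^[τ] fun i => decide (i = 0)) := by
    constructor
    · intro i
      rfl
    · intro τ i hi
      show zb ((step y)^[τ + 1] (fun i => decide (i = 0)) i) = _
      rw [Function.iterate_succ_apply', hy, step_word _ _ hi,
        (show ∀ a : ZMod 2, zb (decide (a = 1)) = a by decide)]
      rfl
  rw [← hy]
  have h1 := hrun.last hn hm (t (dim N)) (by have := ht (dim N); omega)
  rw [h1]
  have h2 : (∀ j < r, ∀ b < m, dv X K (ex u) (ex v) (ex c) (ev σ) b j = 0) ↔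
      ∀ b, ∀ j, hs u v c (X b) j = zb (σ j) := by
    constructor
    · intro h b j
      exact (dv_iff X u v c σ b j).1 (h j j.2 b b.2)
    · intro h j hj b hb
      exact (dv_iff X u v c σ ⟨b, hb⟩ ⟨j, hj⟩).2 (h _ _)
  rw [decide_eq_decide.2 h2]

theorem nd_it {t : ℕ → ℕ} (ht : ∀ n, n ≤ t n) : NDBlocks (It t) := by
  intro N hN
  have h := bm_le N
  refine ⟨pos N (bm N) (bm N + 2) 2 (by omega) (by omega), fun b b' l l' => pos_inj _ _, ?_⟩
  intro r hr u v c σ
  refine ⟨_, fun X => (it_run ht hN (by omega) u v c σ false X).trans ?_⟩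
  rw [Bool.false_xor, decide_eq_true_iff]
  rfl

theorem nd_it' {t : ℕ → ℕ} (ht : ∀ n, n ≤ t n) : NDBlocks (fun y => ¬ It t y) := by
  intro N hN
  have h := bm_le N
  refine ⟨pos N (bm N) (bm N + 2) 2 (by omega) (by omega), fun b b' l l' => pos_inj _ _, ?_⟩
  intro r hr u v c σ
  refine ⟨_, fun X => (not_congr (it_run ht hN (by omega) u v c σ true X)).trans ?_⟩
  rw [Bool.true_xor, Bool.not_eq_true, Bool.not_eq_false', decide_eq_true_iff]
  rfl

end Pool.Agent.KMN
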