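import Pool.Agent.KMN.Par
import Pool.Agent.KMN.ItC
import Pool.Agent.KMN.DecB

/-! Nondeterministic programs: all matrix problems at once. -/

namespace Pool.Agent.KMN

open Pool.Agent.KMR

/-- **One pair of constants for all problems.** -/
theorem hardN_all : ∃ δ x0 : ℝ, 0 < δ ∧ 1 ≤ x0 ∧ ∀ L : List Bool → Prop,
    (L = (fun y => ¬ Dec y) ∨ L = (fun y => ¬ RCS y) ∨
      ∃ t : ℕ → ℕ, (∀ n, n ≤ t n) ∧ (L = It t ∨ L = fun y => ¬ It t y)) → HardN δ x0 L := by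
  obtain ⟨δ, x0, hδ, hx0, h⟩ := nd_time
  refine ⟨δ, x0, hδ, hx0, ?_⟩
  rintro L (rfl | rfl | ⟨t, ht, rfl | rfl⟩)
  · exact h _ dec_ndblocks
  · exact h _ rcs_ndblocks
  · exact h _ (nd_it ht)
  · exact h _ (nd_it' ht)

end Pool.Agent.KMN
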