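import Pool.Agent.KMR.FinM

/-! Hash functions with few products, and languages that are conjunctions of hash conditions on blocks. -/

namespace Pool.Agent.KMN

open Finset Pool.Agent.KE Pool.Agent.KH Pool.Agent.KMR

/-- coordinate `j` of the hash value: a sum of products of two linear forms -/
def hs {n r K : ℕ} (u v : Fin K → Fin n → Bool) (c : Fin r → Fin K → Bool) (x : Fin n → Bool)
    (j : Fin r) : ZMod 2 := ∑ i, zb (c j i) * (lin (u i) x * lin (v i) x)

/-- the hash value is `σ` -/
def HF {n r K : ℕ} (u v : Fin K → Fin n → Bool) (c : Fin r → Fin K → Bool) (σ : Fin r → Bool)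
    (x : Fin n → Bool) : Prop := ∀ j, hs u v c x j = zb (σ j)

/-- on a subcube the language says that all blocks have a given hash value -/
def NDBlocks (L : List Bool → Prop) : Prop :=
  ∀ N, 1 ≤ bm N → ∃ pos : Fin (bm N) → Fin (bm N) → Fin N,
    (∀ b b' l l', pos b l = pos b' l' → b = b' ∧ l = l') ∧
    ∀ r : ℕ, r ≤ bm N → ∀ (u v : Fin (4 * bm N) → Fin (bm N) → Bool)
      (c : Fin r → Fin (4 * bm N) → Bool) (σ : Fin r → Bool), ∃ z0 : Fin N → Bool, ∀ X,
        L (List.ofFn (wd pos z0 X)) ↔ ∀ b, HF u v c σ (X b)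

end Pool.Agent.KMN
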