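import Pool.Agent.KMN.Defs

/-! Hash functions that are sums of few products of two linear forms and whose fibres contain no large
rectangles: counting. -/

namespace Pool.Agent.KMN

open Finset Matrix Module

instance : Fact (Nat.Prime 2) := ⟨Nat.prime_two⟩

/-- the rank one matrices with the first factor `α` -/
def r1 {r : ℕ} (α : Fin r → ZMod 2) : (Fin r → ZMod 2) →ₗ[ZMod 2] Matrix (Fin r) (Fin r) (ZMod 2) where
  toFun β := vecMulVec α β
  map_add' β β' := vecMulVec_add α β β'
  map_smul' c β := by
    ext i j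
    simp [vecMulVec_apply, mul_left_comm]

theorem card_sub {E : Type} [AddCommGroup E] [Module (ZMod 2) E] [Fintype E] (U : Submodule (ZMod 2) E)
    [DecidablePred fun x => x ∈ U] : (univ.filter fun x : E => x ∈ U).card = 2 ^ finrank (ZMod 2) U := by
  classical
  have h : Fintype.card U = 2 ^ finrank (ZMod 2) U := by
    rw [Module.card_eq_pow_finrank (K := ZMod 2) (V := U), ZMod.card]
  rw [← h, Fintype.card_subtype]

/-- a subspace of small dimension contains few translates of matrices of rank one -/
theorem rank_one_count {r t K : ℕ} (ht : 1 ≤ t) (hK : K ≤ t ^ 2)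
    (U : Submodule (ZMod 2) (Matrix (Fin r) (Fin r) (ZMod 2))) (hU : finrank (ZMod 2) U ≤ K)
    (E : Matrix (Fin r) (Fin r) (ZMod 2)) [DecidablePred fun x => x ∈ U] :
    (univ.filter fun p : (Fin r → ZMod 2) × (Fin r → ZMod 2) => vecMulVec p.1 p.2 + E ∈ U).card ≤
      2 ^ (r + t + 1) := by
  classical
  set Ua : (Fin r → ZMod 2) → Submodule (ZMod 2) (Fin r → ZMod 2) := fun α => U.comap (r1 α) with hUa
  have h1 : ∀ α : Fin r → ZMod 2, (univ.filter fun β : Fin r → ZMod 2 => vecMulVec α β + E ∈ U).card ≤
      2 ^ finrank (ZMod 2) (Ua α) := by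
    intro α
    rw [← card_sub (Ua α)]
    rcases (univ.filter fun β : Fin r → ZMod 2 => vecMulVec α β + E ∈ U).eq_empty_or_nonempty with h | ⟨β0, hβ0⟩
    · rw [h]
      exact Nat.zero_le _
    · refine Finset.card_le_card_of_injOn (fun β => β - β0) ?_ ?_
      · intro β hβ
        have h2 := (Finset.mem_filter.1 hβ).2
        have h3 := (Finset.mem_filter.1 hβ0).2
        refine Finset.mem_coe.2 (Finset.mem_filter.2 ⟨Finset.mem_univ _, ?_⟩)
        show r1 α (β - β0) ∈ U
        rw [map_sub]
        have h4 := U.sub_mem h2 h3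
        rw [add_sub_add_right_eq_sub] at h4
        exact h4
      · intro β _ β' _ h
        exact sub_left_injective h
  set Λ : Set (Fin r → ZMod 2) := {α | t ≤ finrank (ZMod 2) (Ua α)} with hΛ
  have h2 : finrank (ZMod 2) (Submodule.span (ZMod 2) Λ) ≤ t := by
    by_contra hcon
    push Not at hcon
    obtain ⟨f, hf, -, hli⟩ := Submodule.exists_fun_fin_finrank_span_eq (ZMod 2) Λ
    set g : Fin (t + 1) → Fin r → ZMod 2 := fun i => f (Fin.castLE hcon i) with hg
    have hgli : LinearIndependent (ZMod 2) g := hli.comp _ (Fin.castLE_injective hcon)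
    set Ψ : (∀ i : Fin (t + 1), Ua (g i)) →ₗ[ZMod 2] U :=
      { toFun := fun β => ∑ i, (⟨r1 (g i) (β i), (β i).2⟩ : U)
        map_add' := by
          intro β β'
          rw [← Finset.sum_add_distrib]
          refine Finset.sum_congr rfl fun i _ => Subtype.ext ?_
          simp
        map_smul' := by
          intro c β
          rw [RingHom.id_apply, Finset.smul_sum]
          refine Finset.sum_congr rfl fun i _ => Subtype.ext ?_
          simp } with hΨ
    have hinj : Function.Injective Ψ := by
      rw [← LinearMap.ker_eq_bot, LinearMap.ker_eq_bot']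
      intro β hβ
      have h3 : ∑ i, r1 (g i) (β i : Fin r → ZMod 2) = 0 := by
        have := congrArg (Subtype.val) hβ
        simp only [hΨ, LinearMap.coe_mk, AddHom.coe_mk] at this
        refine Eq.trans ?_ this
        rw [AddSubmonoidClass.coe_finset_sum]
      funext i
      apply Subtype.ext
      funext q
      have h4 : ∑ i, ((β i : Fin r → ZMod 2) q) • g i = 0 := by
        funext p
        have h5 := congrFun (congrFun h3 p) q
        rw [Matrix.sum_apply] at h5
        rw [Finset.sum_apply]
        simp only [Pi.smul_apply, smul_eq_mul]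
        refine Eq.trans ?_ h5
        refine Finset.sum_congr rfl fun i _ => ?_
        show _ = vecMulVec (g i) _ p q
        rw [vecMulVec_apply, mul_comm]
      exact (Fintype.linearIndependent_iff.1 hgli) _ h4 i
    have h3 := LinearMap.finrank_le_finrank_of_injective hinj
    rw [Module.finrank_pi_fintype] at h3
    have h4 : (t + 1) * t ≤ ∑ i : Fin (t + 1), finrank (ZMod 2) (Ua (g i)) := by
      have : ∑ _i : Fin (t + 1), t = (t + 1) * t := by simp
      rw [← this]
      exact Finset.sum_le_sum fun i _ => hf _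
    nlinarith
  have h3 : (univ.filter fun α : Fin r → ZMod 2 => t ≤ finrank (ZMod 2) (Ua α)).card ≤ 2 ^ t := by
    refine le_trans (Finset.card_le_card ?_) ((card_sub (Submodule.span (ZMod 2) Λ)).le.trans
      (Nat.pow_le_pow_right (by norm_num) h2))
    intro α hα
    exact Finset.mem_filter.2 ⟨Finset.mem_univ _, Submodule.subset_span (Finset.mem_filter.1 hα).2⟩
  have h4 : (univ.filter fun p : (Fin r → ZMod 2) × (Fin r → ZMod 2) => vecMulVec p.1 p.2 + E ∈ U).card =
      ∑ α : Fin r → ZMod 2, (univ.filter fun β : Fin r → ZMod 2 => vecMulVec α β + E ∈ U).card := by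
    simp only [Finset.card_filter]
    rw [Fintype.sum_prod_type]
  have hcr : Fintype.card (Fin r → ZMod 2) = 2 ^ r := by
    rw [Fintype.card_fun, ZMod.card, Fintype.card_fin]
  rw [h4, ← Finset.sum_filter_add_sum_filter_not univ (fun α : Fin r → ZMod 2 => t ≤ finrank (ZMod 2) (Ua α))]
  have h5 : ∑ α ∈ univ.filter (fun α : Fin r → ZMod 2 => t ≤ finrank (ZMod 2) (Ua α)),
      (univ.filter fun β : Fin r → ZMod 2 => vecMulVec α β + E ∈ U).card ≤ 2 ^ t * 2 ^ r := by
    refine (Finset.sum_le_card_nsmul _ _ (2 ^ r) fun α _ => ?_).trans ?_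
    · refine (Finset.card_le_univ _).trans hcr.le
    · rw [smul_eq_mul]
      exact Nat.mul_le_mul_right _ h3
  have h6 : ∑ α ∈ univ.filter (fun α : Fin r → ZMod 2 => ¬ t ≤ finrank (ZMod 2) (Ua α)),
      (univ.filter fun β : Fin r → ZMod 2 => vecMulVec α β + E ∈ U).card ≤ 2 ^ r * 2 ^ t := by
    refine (Finset.sum_le_card_nsmul _ _ (2 ^ t) fun α hα => ?_).trans ?_
    · have := (Finset.mem_filter.1 hα).2
      exact (h1 α).trans (Nat.pow_le_pow_right (by norm_num) (by omega))
    · rw [smul_eq_mul]
      exact Nat.mul_le_mul_right _ ((Finset.card_le_univ _).trans hcr.le)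
  calc _ ≤ 2 ^ t * 2 ^ r + 2 ^ r * 2 ^ t := add_le_add h5 h6
    _ = 2 ^ (r + t + 1) := by rw [pow_succ, pow_add]; ring

section
variable {Ω E : Type} [Fintype Ω] [AddCommGroup E] [Module (ZMod 2) E] [Fintype E] (M : Ω → E)

open Classical in
/-- the number of relations between the vectors of a family -/
noncomputable def kc {k : ℕ} (ω : Fin k → Ω) : ℕ :=
  (univ.filter fun c : Fin k → ZMod 2 => ∑ i, c i • M (ω i) = 0).card

open Classical in
theorem kc_cons {k : ℕ} (ω' : Ω) (ω : Fin k → Ω) : kc M (Fin.cons ω' ω : Fin (k + 1) → Ω) ≤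
    kc M ω * (if M ω' ∈ Submodule.span (ZMod 2) (Set.range fun i => M (ω i)) then 2 else 1) := by
  have h1 : kc M (Fin.cons ω' ω : Fin (k + 1) → Ω) =
      ∑ c' : ZMod 2, (univ.filter fun c : Fin k → ZMod 2 => c' • M ω' + ∑ i, c i • M (ω i) = 0).card := by
    unfold kc
    simp only [Finset.card_filter]
    rw [← (Fin.consEquiv fun _ => ZMod 2).sum_comp, Fintype.sum_prod_type]
    refine Finset.sum_congr rfl fun c' _ => Finset.sum_congr rfl fun c _ => ?_
    simp [Fin.sum_univ_succ, Fin.consEquiv]
  have h2 : ∀ c' : ZMod 2, (univ.filter fun c : Fin k → ZMod 2 => c' • M ω' + ∑ i, c i • M (ω i) = 0).card ≤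
      kc M ω := by
    intro c'
    rcases (univ.filter fun c : Fin k → ZMod 2 =>
      c' • M ω' + ∑ i, c i • M (ω i) = 0).eq_empty_or_nonempty with h | ⟨c0, hc0⟩
    · rw [h]
      exact Nat.zero_le _
    · refine Finset.card_le_card_of_injOn (fun c => c - c0) ?_ ?_
      · intro c hc
        have h2 := (Finset.mem_filter.1 hc).2
        have h3 := (Finset.mem_filter.1 hc0).2
        refine Finset.mem_coe.2 (Finset.mem_filter.2 ⟨Finset.mem_univ _, ?_⟩)
        simp only [Pi.sub_apply, sub_smul]
        rw [Finset.sum_sub_distrib, sub_eq_zero]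
        exact add_left_cancel (h2.trans h3.symm)
      · intro β _ β' _ h
        exact sub_left_injective h
  rw [h1]
  have h3 : (Finset.univ : Finset (ZMod 2)) = {0, 1} := by decide
  rw [h3, Finset.sum_pair (by decide)]
  split_ifs with h
  · have := h2 0
    have := h2 1
    omega
  · have h4 : (univ.filter fun c : Fin k → ZMod 2 => (1 : ZMod 2) • M ω' + ∑ i, c i • M (ω i) = 0) = ∅ := by
      rw [Finset.filter_eq_empty_iff]
      intro c _ hc
      apply h
      rw [one_smul] at hc
      have h5 : M ω' = -∑ i, c i • M (ω i) := eq_neg_of_add_eq_zero_left hc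
      rw [h5]
      refine Submodule.neg_mem _ (Submodule.sum_mem _ fun i _ => Submodule.smul_mem _ _ ?_)
      exact Submodule.subset_span ⟨i, rfl⟩
    rw [h4, Finset.card_empty, add_zero, mul_one]
    exact h2 0

open Classical in
/-- **The moments of the number of relations.** -/
theorem sum_kc {K P : ℕ} (m : ℕ) (hp : ∀ U : Submodule (ZMod 2) E, finrank (ZMod 2) U ≤ K →
    (univ.filter fun ω : Ω => M ω ∈ U).card ≤ P) : ∀ k ≤ K,
    ∑ ω : Fin k → Ω, kc M ω ^ m ≤ (Fintype.card Ω + 2 ^ m * P) ^ k := by
  intro k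
  induction k with
  | zero =>
    intro _
    rw [Fintype.sum_unique, pow_zero]
    unfold kc
    simp
  | succ k ih =>
    intro hk
    rw [← (Fin.consEquiv fun _ => Ω).sum_comp, Fintype.sum_prod_type_right, pow_succ]
    have h1 : ∀ ω : Fin k → Ω, ∑ ω' : Ω, kc M ((Fin.consEquiv fun _ => Ω) (ω', ω)) ^ m ≤
        kc M ω ^ m * (Fintype.card Ω + 2 ^ m * P) := by
      intro ω
      have h2 : finrank (ZMod 2) (Submodule.span (ZMod 2) (Set.range fun i => M (ω i))) ≤ K := by
        have := finrank_range_le_card (R := ZMod 2) (b := fun i => M (ω i))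
        rw [Fintype.card_fin] at this
        unfold Set.finrank at this
        omega
      have h3 : ∀ ω' : Ω, kc M ((Fin.consEquiv fun _ => Ω) (ω', ω)) ^ m ≤ kc M ω ^ m *
          (1 + 2 ^ m * if M ω' ∈ Submodule.span (ZMod 2) (Set.range fun i => M (ω i)) then 1 else 0) := by
        intro ω'
        have h4 := Nat.pow_le_pow_left (kc_cons M ω' ω) m
        refine le_trans h4 ?_
        rw [mul_pow]
        refine Nat.mul_le_mul_left _ ?_
        split_ifs
        · omega
        · simp
      refine (Finset.sum_le_sum fun ω' _ => h3 ω').trans ?_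
      rw [← Finset.mul_sum, Finset.sum_add_distrib, ← Finset.mul_sum, Finset.sum_boole, Finset.sum_const,
        smul_eq_mul, mul_one, Finset.card_univ]
      exact Nat.mul_le_mul_left _ (Nat.add_le_add_left (Nat.mul_le_mul_left _ (by simpa using hp _ h2)) _)
    refine (Finset.sum_le_sum fun ω _ => h1 ω).trans ?_
    rw [← Finset.sum_mul]
    exact Nat.mul_le_mul_right _ (ih (by omega))

end

end Pool.Agent.KMN
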