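import Pool.Agent.KMN.Hash

/-! Hash functions that are sums of few products of two linear forms and whose fibres contain no large
rectangles: existence. -/

namespace Pool.Agent.KMN

open Finset Matrix Module Pool.Agent.SemRO Pool.Agent.KE Pool.Agent.KMR

/-- fibres of a surjective linear map -/
theorem card_fib {V W : Type} [AddCommGroup V] [Module (ZMod 2) V] [Fintype V] [AddCommGroup W]
    [Module (ZMod 2) W] [Fintype W] [DecidableEq W] {Φ : V →ₗ[ZMod 2] W} (hΦ : Function.Surjective Φ)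
    (x : W) : (univ.filter fun v : V => Φ v = x).card * Fintype.card W = Fintype.card V := by
  classical
  have h : ∑ y : W, (univ.filter fun v : V => Φ v = y).card = Fintype.card V := by
    rw [← Finset.card_univ]
    exact (Finset.card_eq_sum_card_fiberwise fun _ _ => Finset.mem_coe.2 (Finset.mem_univ _)).symm
  have h2 : ∀ y : W, (univ.filter fun v : V => Φ v = y).card = (univ.filter fun v : V => Φ v = x).card :=
    fun y => AddMonoidHom.card_fiber_eq_of_mem_range Φ (hΦ y) (hΦ x)
  rw [← h, Finset.sum_congr rfl fun y _ => h2 y, Finset.sum_const, smul_eq_mul, Finset.card_univ, mul_comm]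

/-- counting pairs through a surjective linear map -/
theorem card_pairs {V W : Type} [AddCommGroup V] [Module (ZMod 2) V] [Fintype V] [AddCommGroup W]
    [Module (ZMod 2) W] [Fintype W] {Φ : V →ₗ[ZMod 2] W} (hΦ : Function.Surjective Φ)
    (R : W → W → Prop) [DecidableRel R] :
    (univ.filter fun p : V × V => R (Φ p.1) (Φ p.2)).card * Fintype.card W ^ 2 =
      (univ.filter fun p : W × W => R p.1 p.2).card * Fintype.card V ^ 2 := by
  classical
  have h1 : (univ.filter fun p : V × V => R (Φ p.1) (Φ p.2)).card =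
      ∑ q ∈ univ.filter (fun p : W × W => R p.1 p.2), (univ.filter fun v : V => Φ v = q.1).card *
        (univ.filter fun v : V => Φ v = q.2).card := by
    rw [Finset.card_eq_sum_card_fiberwise (f := fun p : V × V => (Φ p.1, Φ p.2))
      (t := univ.filter fun p : W × W => R p.1 p.2) (fun p hp => by
        have := (Finset.mem_filter.1 hp).2
        exact Finset.mem_coe.2 (Finset.mem_filter.2 ⟨Finset.mem_univ _, this⟩))]
    refine Finset.sum_congr rfl fun q hq => ?_
    rw [← Finset.card_product]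
    congr 1
    ext ⟨a, b⟩
    have hR := (Finset.mem_filter.1 hq).2
    simp only [Finset.mem_filter, Finset.mem_univ, true_and, Finset.mem_product]
    constructor
    · rintro ⟨_, h⟩
      exact ⟨congrArg Prod.fst h, congrArg Prod.snd h⟩
    · rintro ⟨h, h'⟩
      refine ⟨?_, Prod.ext h h'⟩
      rw [h, h']
      exact hR
  rw [h1, Finset.sum_mul]
  rw [Finset.sum_congr rfl fun q _ => show (univ.filter fun v : V => Φ v = q.1).card *
        (univ.filter fun v : V => Φ v = q.2).card * Fintype.card W ^ 2 = Fintype.card V ^ 2 by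
      rw [← card_fib hΦ q.1, pow_two, pow_two]
      have := card_fib hΦ q.2
      have h3 := card_fib hΦ q.1
      calc _ = ((univ.filter fun v : V => Φ v = q.1).card * Fintype.card W) *
            ((univ.filter fun v : V => Φ v = q.2).card * Fintype.card W) := by ring
        _ = _ := by rw [this, h3]]
  rw [Finset.sum_const, smul_eq_mul]

section
variable {n r : ℕ}

/-- the values of the linear forms at a family of vectors -/
def dots {ι : Type} (c : ι → Fin n → ZMod 2) : (Fin n → ZMod 2) →ₗ[ZMod 2] (ι → ZMod 2) where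
  toFun u := fun i => u ⬝ᵥ c i
  map_add' u v := by
    funext i
    exact add_dotProduct _ _ _
  map_smul' k u := by
    funext i
    exact smul_dotProduct _ _ _

theorem dots_surj {ι : Type} [Fintype ι] [DecidableEq ι] {c : ι → Fin n → ZMod 2}
    (hc : LinearIndependent (ZMod 2) c) : Function.Surjective (dots c) := by
  rw [← LinearMap.range_eq_top]
  apply Submodule.eq_top_of_finrank_eq
  have h1 : (Matrix.of c).rank = Fintype.card ι :=
    LinearIndependent.rank_matrix (M := Matrix.of c) hc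
  have h2 : LinearMap.range (dots c) = LinearMap.range (Matrix.of c).mulVecLin := by
    congr 1
    refine LinearMap.ext fun u => ?_
    funext i
    show u ⬝ᵥ c i = c i ⬝ᵥ u
    exact dotProduct_comm _ _
  rw [h2, Module.finrank_fintype_fun_eq_card]
  exact h1

/-- the matrix of the mixed differences of a product of two linear forms -/
def mm (a b : Fin r → Fin n → ZMod 2) (ω : (Fin n → ZMod 2) × (Fin n → ZMod 2)) :
    Matrix (Fin r) (Fin r) (ZMod 2) :=
  vecMulVec (fun p => ω.1 ⬝ᵥ a p) (fun q => ω.2 ⬝ᵥ b q) +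
    vecMulVec (fun p => ω.2 ⬝ᵥ a p) (fun q => ω.1 ⬝ᵥ b q)

/-- the matrix lies in a small subspace with small probability -/
theorem mm_count {t K : ℕ} (ht : 1 ≤ t) (hK : K ≤ t ^ 2) {a b : Fin r → Fin n → ZMod 2}
    (hab : LinearIndependent (ZMod 2) (Sum.elim a b))
    (U : Submodule (ZMod 2) (Matrix (Fin r) (Fin r) (ZMod 2))) (hU : finrank (ZMod 2) U ≤ K)
    [DecidablePred fun x => x ∈ U] :
    (univ.filter fun ω : (Fin n → ZMod 2) × (Fin n → ZMod 2) => mm a b ω ∈ U).card * 2 ^ r ≤
      2 ^ (2 * n) * 2 ^ (t + 1) := by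
  classical
  set R : ((Fin r ⊕ Fin r) → ZMod 2) → ((Fin r ⊕ Fin r) → ZMod 2) → Prop := fun x y =>
    vecMulVec (fun p => x (Sum.inl p)) (fun q => y (Sum.inr q)) +
      vecMulVec (fun p => y (Sum.inl p)) (fun q => x (Sum.inr q)) ∈ U with hR
  have h1 := card_pairs (dots_surj hab) R
  have e1 : (univ.filter fun p : (Fin n → ZMod 2) × (Fin n → ZMod 2) =>
      R (dots (Sum.elim a b) p.1) (dots (Sum.elim a b) p.2)) =
      univ.filter fun ω : (Fin n → ZMod 2) × (Fin n → ZMod 2) => mm a b ω ∈ U := by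
    refine Finset.filter_congr fun ω _ => Iff.rfl
  rw [e1] at h1
  have hW : Fintype.card ((Fin r ⊕ Fin r) → ZMod 2) = 2 ^ (2 * r) := by
    rw [Fintype.card_fun, ZMod.card, Fintype.card_sum, Fintype.card_fin, two_mul]
  have hV : Fintype.card (Fin n → ZMod 2) = 2 ^ n := by
    rw [Fintype.card_fun, ZMod.card, Fintype.card_fin]
  rw [hW, hV] at h1
  -- the count in the small space
  have h2 : (univ.filter fun p : ((Fin r ⊕ Fin r) → ZMod 2) × ((Fin r ⊕ Fin r) → ZMod 2) =>
      R p.1 p.2).card ≤ 2 ^ (2 * r) * 2 ^ (r + t + 1) := by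
    set e : ((Fin r ⊕ Fin r) → ZMod 2) × ((Fin r ⊕ Fin r) → ZMod 2) ≃
        ((Fin r → ZMod 2) × (Fin r → ZMod 2)) × ((Fin r → ZMod 2) × (Fin r → ZMod 2)) :=
      { toFun := fun p => ((fun i => p.2 (Sum.inl i), fun i => p.1 (Sum.inr i)),
          (fun i => p.1 (Sum.inl i), fun i => p.2 (Sum.inr i)))
        invFun := fun p => (Sum.elim p.2.1 p.1.2, Sum.elim p.1.1 p.2.2)
        left_inv := by
          rintro ⟨x, y⟩
          refine Prod.ext ?_ ?_
          · funext i
            cases i <;> rfl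
          · funext i
            cases i <;> rfl
        right_inv := fun _ => rfl } with he
    have h3 : (univ.filter fun p : ((Fin r ⊕ Fin r) → ZMod 2) × ((Fin r ⊕ Fin r) → ZMod 2) =>
        R p.1 p.2).card = ∑ z : (Fin r → ZMod 2) × (Fin r → ZMod 2),
          (univ.filter fun p : (Fin r → ZMod 2) × (Fin r → ZMod 2) =>
            vecMulVec p.1 p.2 + vecMulVec z.1 z.2 ∈ U).card := by
      simp only [Finset.card_filter]
      rw [← e.symm.sum_comp, Fintype.sum_prod_type]
      rfl
    rw [h3]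
    refine (Finset.sum_le_card_nsmul _ _ (2 ^ (r + t + 1)) fun z _ =>
      rank_one_count ht hK U hU (vecMulVec z.1 z.2)).trans ?_
    have h4 : Fintype.card ((Fin r → ZMod 2) × (Fin r → ZMod 2)) = 2 ^ (2 * r) := by
      rw [Fintype.card_prod, Fintype.card_fun, ZMod.card, Fintype.card_fin, ← pow_add, two_mul]
    rw [smul_eq_mul, Finset.card_univ, h4]
  have h4 : (univ.filter fun ω : (Fin n → ZMod 2) × (Fin n → ZMod 2) => mm a b ω ∈ U).card * 2 ^ r *
      2 ^ (3 * r) ≤ 2 ^ (2 * n) * 2 ^ (t + 1) * 2 ^ (3 * r) := by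
    calc _ = (univ.filter fun ω : (Fin n → ZMod 2) × (Fin n → ZMod 2) => mm a b ω ∈ U).card *
          (2 ^ (2 * r)) ^ 2 := by
          rw [mul_assoc, ← pow_add, ← pow_mul]
          congr 2
          ring
      _ = _ := h1
      _ ≤ (2 ^ (2 * r) * 2 ^ (r + t + 1)) * (2 ^ n) ^ 2 := Nat.mul_le_mul_right _ h2
      _ = _ := by
        rw [← pow_mul, ← pow_add, ← pow_add, ← pow_add, ← pow_add]
        congr 1
        ring
  exact Nat.le_of_mul_le_mul_right h4 (by positivity)

/-- **For most choices no pair of independent families is bad.** -/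
theorem exists_forms {t : ℕ} (hn : 1 ≤ n) (h4 : 4 * n ≤ t ^ 2) (h2 : 2 * t + 5 ≤ r) :
    ∃ (ω : Fin (4 * n) → (Fin n → ZMod 2) × (Fin n → ZMod 2)) (c : Fin r → Fin (4 * n) → ZMod 2),
      ∀ a b : Fin r → Fin n → ZMod 2, LinearIndependent (ZMod 2) (Sum.elim a b) →
        ∃ j, ∑ i, c j i • mm a b (ω i) ≠ 0 := by
  classical
  by_contra hcon
  push Not at hcon
  have ht : 1 ≤ t := by
    by_contra h0
    have : t = 0 := by omega
    subst this
    omega
  set K := 4 * n with hK
  set Ω := (Fin n → ZMod 2) × (Fin n → ZMod 2) with hΩ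
  have hV : Fintype.card (Fin n → ZMod 2) = 2 ^ n := by
    rw [Fintype.card_fun, ZMod.card, Fintype.card_fin]
  have hcΩ : Fintype.card Ω = 2 ^ (2 * n) := by
    show Fintype.card ((Fin n → ZMod 2) × (Fin n → ZMod 2)) = _
    rw [Fintype.card_prod, hV, ← pow_add, two_mul]
  set Q : Finset ((Fin r → Fin n → ZMod 2) × (Fin r → Fin n → ZMod 2)) :=
    univ.filter fun p => LinearIndependent (ZMod 2) (Sum.elim p.1 p.2) with hQ
  have hcov : (univ : Finset ((Fin K → Ω) × (Fin r → Fin K → ZMod 2))) ⊆ Q.biUnion fun p =>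
      univ.filter fun z => ∀ j, ∑ i, z.2 j i • mm p.1 p.2 (z.1 i) = 0 := by
    rintro ⟨ω, c⟩ _
    obtain ⟨a, b, hab, h⟩ := hcon ω c
    exact Finset.mem_biUnion.2 ⟨(a, b), Finset.mem_filter.2 ⟨Finset.mem_univ _, hab⟩,
      Finset.mem_filter.2 ⟨Finset.mem_univ _, h⟩⟩
  have h1 := (Finset.card_le_card hcov).trans Finset.card_biUnion_le
  -- one pair
  have h3 : ∀ p ∈ Q, (univ.filter fun z : (Fin K → Ω) × (Fin r → Fin K → ZMod 2) =>
      ∀ j, ∑ i, z.2 j i • mm p.1 p.2 (z.1 i) = 0).card ≤ (2 ^ (2 * n + t + 2)) ^ K := by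
    intro p hp
    have hab := (Finset.mem_filter.1 hp).2
    obtain ⟨P, hP⟩ : ∃ P, P = 2 ^ (2 * n) * 2 ^ (t + 1) / 2 ^ r := ⟨_, rfl⟩
    have hcount := sum_kc (M := mm p.1 p.2) (K := K) (P := P) r (fun U hU => by
      rw [hP, Nat.le_div_iff_mul_le (by positivity)]
      convert mm_count ht h4 hab U hU using 2) K le_rfl
    have e1 : (univ.filter fun z : (Fin K → Ω) × (Fin r → Fin K → ZMod 2) =>
        ∀ j, ∑ i, z.2 j i • mm p.1 p.2 (z.1 i) = 0).card = ∑ ω : Fin K → Ω, kc (mm p.1 p.2) ω ^ r := by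
      simp only [Finset.card_filter]
      rw [Fintype.sum_prod_type]
      refine Finset.sum_congr rfl fun ω _ => ?_
      rw [← Finset.card_filter]
      have e2 : (univ.filter fun c : Fin r → Fin K → ZMod 2 =>
          ∀ j, ∑ i, c j i • mm p.1 p.2 (ω i) = 0) = Fintype.piFinset fun _ : Fin r =>
            univ.filter fun c : Fin K → ZMod 2 => ∑ i, c i • mm p.1 p.2 (ω i) = 0 := by
        ext c
        simp [Fintype.mem_piFinset]
      have e3 : (univ.filter fun c : Fin K → ZMod 2 => ∑ i, c i • mm p.1 p.2 (ω i) = 0).card =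
          kc (mm p.1 p.2) ω := by
        unfold kc
        apply congrArg
        ext c
        simp only [Finset.mem_filter]
      rw [e2, Fintype.card_piFinset_const, e3]
    rw [e1]
    refine hcount.trans (Nat.pow_le_pow_left ?_ K)
    rw [hcΩ, hP]
    have h5 : 2 ^ r * (2 ^ (2 * n) * 2 ^ (t + 1) / 2 ^ r) ≤ 2 ^ (2 * n) * 2 ^ (t + 1) :=
      Nat.mul_div_le _ _
    refine (Nat.add_le_add_left h5 _).trans ?_
    have h6 : 1 ≤ 2 ^ (t + 1) := Nat.one_le_two_pow
    have h7 : 2 ^ (2 * n) * 1 ≤ 2 ^ (2 * n) * 2 ^ (t + 1) := Nat.mul_le_mul_left _ h6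
    have h8 : 2 ^ (2 * n + t + 2) = 2 * (2 ^ (2 * n) * 2 ^ (t + 1)) := by
      rw [← pow_add, ← pow_succ']
      congr 1
    omega
  have h4' : Q.card ≤ 2 ^ (2 * r * n) := by
    refine (Finset.card_filter_le _ _).trans (le_of_eq ?_)
    rw [Finset.card_univ, Fintype.card_prod, Fintype.card_fun, hV, Fintype.card_fin, ← pow_mul, ← pow_add]
    congr 1
    ring
  have h5 : Fintype.card ((Fin K → Ω) × (Fin r → Fin K → ZMod 2)) = 2 ^ (2 * n * K + K * r) := by
    rw [Fintype.card_prod, Fintype.card_fun, Fintype.card_fun, Fintype.card_fun, ZMod.card, hcΩ,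
      Fintype.card_fin, Fintype.card_fin, ← pow_mul, ← pow_mul, ← pow_add]
  have h6 : 2 ^ (2 * n * K + K * r) ≤ 2 ^ (2 * r * n + (2 * n + t + 2) * K) := by
    rw [← h5, ← Finset.card_univ]
    refine h1.trans ((Finset.sum_le_card_nsmul _ _ _ h3).trans ?_)
    rw [smul_eq_mul, pow_add 2 (2 * r * n), pow_mul 2 (2 * n + t + 2) K]
    exact Nat.mul_le_mul_right _ h4'
  have h7 := (Nat.pow_le_pow_iff_right (by norm_num : 1 < 2)).1 h6
  have h8 : 2 * n * K + K * r = 8 * n * n + 4 * (n * r) := by rw [hK]; ring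
  have h9 : 2 * r * n + (2 * n + t + 2) * K = 2 * (n * r) + 8 * n * n + 4 * (n * t) + 8 * n := by
    rw [hK]; ring
  have h10 : n * (2 * t + 5) ≤ n * r := Nat.mul_le_mul_left _ h2
  have h11 : n * (2 * t + 5) = 2 * (n * t) + 5 * n := by ring
  omega

end

end Pool.Agent.KMN
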