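import Pool.Agent.KMN.HashB
import Pool.Agent.KMR.Bal3

/-! Hash functions that are sums of few products of two linear forms and whose fibres contain no large
rectangles. -/

namespace Pool.Agent.KMN

open Finset Matrix Module Pool.Agent.SemRO Pool.Agent.KD Pool.Agent.KE Pool.Agent.KMR

theorem zb_dec (a : ZMod 2) : zb (decide (a = 1)) = a := by
  revert a
  decide

section
variable {n r : ℕ}

/-- the vector over the field with two elements -/
def vz (x : Fin n → Bool) : Fin n → ZMod 2 := fun l => zb (x l)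

theorem lin_dec (u : Fin n → ZMod 2) (x : Fin n → Bool) :
    lin (fun l => decide (u l = 1)) x = u ⬝ᵥ vz x := by
  rw [lin_eq]
  unfold dotProduct vz
  refine Finset.sum_congr rfl fun l _ => ?_
  rw [zb_dec]

/-- many vectors contain many independent vectors -/
theorem exists_indep {d : Fin (2 ^ r) → Fin n → ZMod 2} (hd : Function.Injective d) :
    ∃ a : Fin r → Fin n → ZMod 2, LinearIndependent (ZMod 2) a ∧ ∀ p, ∃ i, a p = d i := by
  classical
  obtain ⟨f, hf, -, hli⟩ := Submodule.exists_fun_fin_finrank_span_eq (ZMod 2) (Set.range d)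
  have h1 : r ≤ finrank (ZMod 2) (Submodule.span (ZMod 2) (Set.range d)) := by
    rw [← Nat.pow_le_pow_iff_right (a := 2) (by norm_num), ← card_sub]
    have h2 : (univ.image d).card = 2 ^ r := by
      rw [Finset.card_image_of_injective _ hd, Finset.card_univ, Fintype.card_fin]
    refine h2.ge.trans (Finset.card_le_card fun x hx => ?_)
    obtain ⟨i, _, rfl⟩ := Finset.mem_image.1 hx
    exact Finset.mem_filter.2 ⟨Finset.mem_univ _, Submodule.subset_span ⟨i, rfl⟩⟩
  refine ⟨fun p => f (Fin.castLE h1 p), hli.comp _ (Fin.castLE_injective h1), fun p => ?_⟩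
  obtain ⟨i, hi⟩ := hf (Fin.castLE h1 p)
  exact ⟨i, hi.symm⟩

/-- the vectors that vanish on a set -/
def van (A : Set (Fin n)) : Submodule (ZMod 2) (Fin n → ZMod 2) where
  carrier := {x | ∀ l ∈ A, x l = 0}
  add_mem' := by
    intro a b ha hb l hl
    rw [Pi.add_apply, ha l hl, hb l hl, add_zero]
  zero_mem' := fun _ _ => rfl
  smul_mem' := by
    intro c a ha l hl
    rw [Pi.smul_apply, ha l hl, smul_zero]

/-- **Hash functions without large rectangles.** -/
theorem exists_hash {t : ℕ} (hn : 1 ≤ n) (h4 : 4 * n ≤ t ^ 2) (h2 : 2 * t + 5 ≤ r) :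
    ∃ (u v : Fin (4 * n) → Fin n → Bool) (c : Fin r → Fin (4 * n) → Bool),
      ∀ σ : Fin r → Bool, RectFree {x | HF u v c σ x} (2 ^ r) := by
  classical
  obtain ⟨ω, c, hc⟩ := exists_forms hn h4 h2
  refine ⟨fun i l => decide ((ω i).1 l = 1), fun i l => decide ((ω i).2 l = 1),
    fun j i => decide (c j i = 1), fun σ => ?_⟩
  have hval : ∀ (x : Fin n → Bool) (j : Fin r), hs (fun i l => decide ((ω i).1 l = 1))
      (fun i l => decide ((ω i).2 l = 1)) (fun j i => decide (c j i = 1)) x j =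
        ∑ i, c j i * (((ω i).1 ⬝ᵥ vz x) * ((ω i).2 ⬝ᵥ vz x)) := by
    intro x j
    unfold hs
    refine Finset.sum_congr rfl fun i _ => ?_
    rw [zb_dec, lin_dec, lin_dec]
  intro A uu vv hu hv
  by_contra hcon
  push Not at hcon
  set i0 : Fin (2 ^ r) := ⟨0, by positivity⟩ with hi0
  set d : Fin (2 ^ r) → Fin n → ZMod 2 := fun i l => if l ∈ A then vz (uu i) l - vz (uu i0) l else 0
    with hd
  set d' : Fin (2 ^ r) → Fin n → ZMod 2 := fun i l => if l ∈ A then 0 else vz (vv i) l - vz (vv i0) l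
    with hd'
  have zinj : ∀ a b : Bool, zb a = zb b → a = b := by decide
  have hdi : Function.Injective d := by
    intro i j hij
    by_contra hne
    obtain ⟨l, hl, hne'⟩ := hu i j hne
    have h5 := congrFun hij l
    simp only [hd, if_pos hl] at h5
    exact hne' (zinj _ _ (sub_left_injective h5))
  have hdi' : Function.Injective d' := by
    intro i j hij
    by_contra hne
    obtain ⟨l, hl, hne'⟩ := hv i j hne
    have h5 := congrFun hij l
    simp only [hd', if_neg hl] at h5
    exact hne' (zinj _ _ (sub_left_injective h5))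
  obtain ⟨a, ha, had⟩ := exists_indep hdi
  obtain ⟨b, hb, hbd⟩ := exists_indep hdi'
  have hab : LinearIndependent (ZMod 2) (Sum.elim a b) := by
    refine ha.sum_type hb ?_
    have s1 : Submodule.span (ZMod 2) (Set.range a) ≤ van {l | l ∉ A} := by
      rw [Submodule.span_le]
      rintro _ ⟨p, rfl⟩
      obtain ⟨i, hi⟩ := had p
      rw [hi]
      intro l hl
      have hl' : l ∉ A := hl
      simp only [hd]
      rw [if_neg hl']
    have s2 : Submodule.span (ZMod 2) (Set.range b) ≤ van {l | l ∈ A} := by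
      rw [Submodule.span_le]
      rintro _ ⟨p, rfl⟩
      obtain ⟨i, hi⟩ := hbd p
      rw [hi]
      intro l hl
      have hl' : l ∈ A := hl
      simp only [hd']
      rw [if_pos hl']
    refine Disjoint.mono s1 s2 ?_
    rw [Submodule.disjoint_def]
    intro x h1 h2
    funext l
    by_cases hl : l ∈ A
    · exact h2 l hl
    · exact h1 l hl
  obtain ⟨j, hj⟩ := hc a b hab
  apply hj
  ext p q
  rw [Matrix.sum_apply]
  obtain ⟨i, hi⟩ := had p
  obtain ⟨i', hi'⟩ := hbd q
  set x0 := vz (mix A (uu i0) (vv i0)) with hx0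
  have hx : ∀ k k', vz (mix A (uu k) (vv k')) = x0 + d k + d' k' := by
    intro k k'
    funext l
    rw [Pi.add_apply, Pi.add_apply]
    simp only [hx0, hd, hd', vz, mix]
    by_cases hl : l ∈ A
    · simp only [if_pos hl]
      ring
    · simp only [if_neg hl]
      ring
  have hd0 : d i0 = 0 := by
    funext l
    simp only [hd]
    split_ifs <;> simp
  have hd0' : d' i0 = 0 := by
    funext l
    simp only [hd']
    split_ifs <;> simp
  have hσ : ∀ k k', ∑ i, c j i * (((ω i).1 ⬝ᵥ (x0 + d k + d' k')) * ((ω i).2 ⬝ᵥ (x0 + d k + d' k'))) =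
      zb (σ j) := by
    intro k k'
    rw [← hx, ← hval]
    exact hcon k k' j
  have e1 := hσ i i'
  have e2 := hσ i i0
  have e3 := hσ i0 i'
  have e4 := hσ i0 i0
  have e5 : ∑ k, (c j k • mm a b (ω k)) p q =
      ∑ k, c j k * (((ω k).1 ⬝ᵥ (x0 + d i + d' i')) * ((ω k).2 ⬝ᵥ (x0 + d i + d' i'))) -
      ∑ k, c j k * (((ω k).1 ⬝ᵥ (x0 + d i + d' i0)) * ((ω k).2 ⬝ᵥ (x0 + d i + d' i0))) -
      ∑ k, c j k * (((ω k).1 ⬝ᵥ (x0 + d i0 + d' i')) * ((ω k).2 ⬝ᵥ (x0 + d i0 + d' i'))) +
      ∑ k, c j k * (((ω k).1 ⬝ᵥ (x0 + d i0 + d' i0)) * ((ω k).2 ⬝ᵥ (x0 + d i0 + d' i0))) := by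
    rw [← Finset.sum_sub_distrib, ← Finset.sum_sub_distrib, ← Finset.sum_add_distrib]
    refine Finset.sum_congr rfl fun k _ => ?_
    rw [Matrix.smul_apply, smul_eq_mul]
    unfold mm
    rw [Matrix.add_apply, vecMulVec_apply, vecMulVec_apply, hi, hi', hd0, hd0']
    simp only [dotProduct_add, dotProduct_zero]
    ring
  rw [e5, e1, e2, e3, e4]
  show _ = (0 : ZMod 2)
  ring

end

end Pool.Agent.KMN
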