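import Pool.Agent.KMN.Defs
import Pool.Agent.KMR.ItE

/-! The iterated map checks the hash values of all blocks: a pipeline. -/

namespace Pool.Agent.KMN

open Finset Pool.Agent.KE Pool.Agent.KH Pool.Agent.KMR
open Pool.Agent.KMQ (zb_true zb_false zb_sq sum_window ob zb_ob)

theorem zbi {a b : Bool} : zb a = zb b ↔ a = b := Pool.Agent.KMQ.zb_inj

/-- the product of a row and a vector -/
def sm (n : ℕ) (P y : ℕ → Bool) : ZMod 2 := ∑ j ∈ range n, zb (P j) * zb (y j)

theorem sm_xor (n : ℕ) (P Q y : ℕ → Bool) : sm n (fun j => xor (P j) (Q j)) y = sm n P y + sm n Q y := by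
  unfold sm
  rw [← Finset.sum_add_distrib]
  refine Finset.sum_congr rfl fun j _ => ?_
  rw [zb_xor, add_mul]

theorem sm_and (n : ℕ) (P y : ℕ → Bool) (b : Bool) : sm n (fun j => P j && b) y = zb b * sm n P y := by
  unfold sm
  rw [Finset.mul_sum]
  refine Finset.sum_congr rfl fun j _ => ?_
  rw [zb_and]
  ring

theorem sm_one {n a : ℕ} (ha : a < n) (y : ℕ → Bool) : sm n (fun j => decide (j = a)) y = zb (y a) :=
  row_one y ha

theorem sm_win {n a m : ℕ} (h : a + m ≤ n) (F y : ℕ → Bool) :
    sm n (fun j => decide (a ≤ j ∧ j < a + m) && F (j - a)) y = lw m F (fun l => y (a + l)) :=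
  row_window y h F

/-- the instance without blocks -/
def insP (m K r n : ℕ) (u v c : ℕ → ℕ → Bool) (σ : ℕ → Bool) (neg : Bool) : Ins where
  A i j :=
    if i < 2 then decide (j = 0)
    else if i = 2 then xor (decide (j = 0)) (decide (j = 1))
    else if i < m + 2 then decide (j = i - 1)
    else if i < 2 * m + 2 then false
    else if i = 2 * m + 2 then decide (2 ≤ j ∧ j < 2 + m) && true
    else if i = 2 * m + 3 then decide (j = 2 * m + 2)
    else if i < 2 * m + 4 + K then decide (m + 2 ≤ j ∧ j < m + 2 + m) && u (i - (2 * m + 4)) (j - (m + 2))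
    else if i < 2 * m + 4 + K + r then xor (xor (decide (j = 0)) (decide (j = 1))) (decide (j = i))
    else if i = 2 * m + 4 + K + r then decide (j = 0)
    else if i < 2 * m + 5 + K + 2 * r then decide (j = i - 1)
    else if i = n - 1 then xor (decide (j = 0) && neg) (decide (j = 2 * m + 4 + K + 2 * r))
    else false
  B i j :=
    if i < 2 * m + 4 then decide (j = 0)
    else if i < 2 * m + 4 + K then decide (m + 2 ≤ j ∧ j < m + 2 + m) && v (i - (2 * m + 4)) (j - (m + 2))
    else if i < 2 * m + 4 + K + r then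
      xor (xor (decide (j = 0)) (decide (j = 2 * m + 3) && σ (i - (2 * m + 4 + K))))
        (decide (2 * m + 4 ≤ j ∧ j < 2 * m + 4 + K) && c (i - (2 * m + 4 + K)) (j - (2 * m + 4)))
    else if i = 2 * m + 4 + K + r then decide (j = 0)
    else if i < 2 * m + 5 + K + 2 * r then decide (j = i - (r + 1))
    else if i = n - 1 then decide (j = 0)
    else false
  C _ _ := false
  r _ := false
  s _ := false

section rows
variable {m K r n : ℕ} {u v c : ℕ → ℕ → Bool} {σ : ℕ → Bool} {neg : Bool} {i : ℕ}

theorem A0 (h : i < 2) : (insP m K r n u v c σ neg).A i = fun j => decide (j = 0) := by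
  funext j
  unfold insP
  simp only
  rw [if_pos h]

theorem A2 (h : i = 2) :
    (insP m K r n u v c σ neg).A i = fun j => xor (decide (j = 0)) (decide (j = 1)) := by
  funext j
  unfold insP
  simp only
  rw [if_neg (by omega), if_pos h]

theorem A3 (h : 2 < i) (h' : i < m + 2) :
    (insP m K r n u v c σ neg).A i = fun j => decide (j = i - 1) := by
  funext j
  unfold insP
  simp only
  rw [if_neg (by omega), if_neg (by omega), if_pos h']

theorem A4 (h : i = 2 * m + 2) (hm : 1 ≤ m) :
    (insP m K r n u v c σ neg).A i = fun j => decide (2 ≤ j ∧ j < 2 + m) && true := by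
  funext j
  unfold insP
  simp only
  rw [if_neg (by omega), if_neg (by omega), if_neg (by omega), if_neg (by omega), if_pos h]

theorem A5 (h : i = 2 * m + 3) :
    (insP m K r n u v c σ neg).A i = fun j => decide (j = 2 * m + 2) := by
  funext j
  unfold insP
  simp only
  rw [if_neg (by omega), if_neg (by omega), if_neg (by omega), if_neg (by omega), if_neg (by omega), if_pos h]

theorem A6 (h : 2 * m + 4 ≤ i) (h' : i < 2 * m + 4 + K) :
    (insP m K r n u v c σ neg).A i =
      fun j => decide (m + 2 ≤ j ∧ j < m + 2 + m) && u (i - (2 * m + 4)) (j - (m + 2)) := by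
  funext j
  unfold insP
  simp only
  rw [if_neg (by omega), if_neg (by omega), if_neg (by omega), if_neg (by omega), if_neg (by omega),
    if_neg (by omega), if_pos h']

theorem A7 (h : 2 * m + 4 + K ≤ i) (h' : i < 2 * m + 4 + K + r) :
    (insP m K r n u v c σ neg).A i =
      fun j => xor (xor (decide (j = 0)) (decide (j = 1))) (decide (j = i)) := by
  funext j
  unfold insP
  simp only
  rw [if_neg (by omega), if_neg (by omega), if_neg (by omega), if_neg (by omega), if_neg (by omega),
    if_neg (by omega), if_neg (by omega), if_pos h']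

theorem A8 (h : i = 2 * m + 4 + K + r) :
    (insP m K r n u v c σ neg).A i = fun j => decide (j = 0) := by
  funext j
  unfold insP
  simp only
  rw [if_neg (by omega), if_neg (by omega), if_neg (by omega), if_neg (by omega), if_neg (by omega),
    if_neg (by omega), if_neg (by omega), if_neg (by omega), if_pos h]

theorem A9 (h : 2 * m + 4 + K + r < i) (h' : i < 2 * m + 5 + K + 2 * r) :
    (insP m K r n u v c σ neg).A i = fun j => decide (j = i - 1) := by
  funext j
  unfold insP
  simp only
  rw [if_neg (by omega), if_neg (by omega), if_neg (by omega), if_neg (by omega), if_neg (by omega),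
    if_neg (by omega), if_neg (by omega), if_neg (by omega), if_neg (by omega), if_pos h']

theorem A10 (h : i = n - 1) (hn : 2 * m + 6 + K + 2 * r ≤ n) :
    (insP m K r n u v c σ neg).A i =
      fun j => xor (decide (j = 0) && neg) (decide (j = 2 * m + 4 + K + 2 * r)) := by
  funext j
  unfold insP
  simp only
  rw [if_neg (by omega), if_neg (by omega), if_neg (by omega), if_neg (by omega), if_neg (by omega),
    if_neg (by omega), if_neg (by omega), if_neg (by omega), if_neg (by omega), if_neg (by omega), if_pos h]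

theorem B0 (h : i < 2 * m + 4) : (insP m K r n u v c σ neg).B i = fun j => decide (j = 0) := by
  funext j
  unfold insP
  simp only
  rw [if_pos h]

theorem B6 (h : 2 * m + 4 ≤ i) (h' : i < 2 * m + 4 + K) :
    (insP m K r n u v c σ neg).B i =
      fun j => decide (m + 2 ≤ j ∧ j < m + 2 + m) && v (i - (2 * m + 4)) (j - (m + 2)) := by
  funext j
  unfold insP
  simp only
  rw [if_neg (by omega), if_pos h']

theorem B7 (h : 2 * m + 4 + K ≤ i) (h' : i < 2 * m + 4 + K + r) :
    (insP m K r n u v c σ neg).B i = fun j =>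
      xor (xor (decide (j = 0)) (decide (j = 2 * m + 3) && σ (i - (2 * m + 4 + K))))
        (decide (2 * m + 4 ≤ j ∧ j < 2 * m + 4 + K) && c (i - (2 * m + 4 + K)) (j - (2 * m + 4))) := by
  funext j
  unfold insP
  simp only
  rw [if_neg (by omega), if_neg (by omega), if_pos h']

theorem B8 (h : i = 2 * m + 4 + K + r) :
    (insP m K r n u v c σ neg).B i = fun j => decide (j = 0) := by
  funext j
  unfold insP
  simp only
  rw [if_neg (by omega), if_neg (by omega), if_neg (by omega), if_pos h]

theorem B9 (h : 2 * m + 4 + K + r < i) (h' : i < 2 * m + 5 + K + 2 * r) :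
    (insP m K r n u v c σ neg).B i = fun j => decide (j = i - (r + 1)) := by
  funext j
  unfold insP
  simp only
  rw [if_neg (by omega), if_neg (by omega), if_neg (by omega), if_neg (by omega), if_pos h']

theorem B10 (h : i = n - 1) (hn : 2 * m + 6 + K + 2 * r ≤ n) :
    (insP m K r n u v c σ neg).B i = fun j => decide (j = 0) := by
  funext j
  unfold insP
  simp only
  rw [if_neg (by omega), if_neg (by omega), if_neg (by omega), if_neg (by omega), if_neg (by omega),
    if_pos h]

end rows

/-- the letters of the blocks -/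
def Xe {m : ℕ} (X : Fin m → Fin m → Bool) (b l : ℕ) : Bool :=
  if h : b < m ∧ l < m then X ⟨b, h.1⟩ ⟨l, h.2⟩ else false

/-- the products of a block -/
def zv (m : ℕ) (u v : ℕ → ℕ → Bool) (w : ℕ → Bool) (s : ℕ) : Bool := ob (lw m (u s) w * lw m (v s) w)

/-- the deviation of a block -/
def dv {m : ℕ} (X : Fin m → Fin m → Bool) (K : ℕ) (u v c : ℕ → ℕ → Bool) (σ : ℕ → Bool) (b j : ℕ) : ZMod 2 :=
  zb (σ j) * (if b < m then 1 else 0) + lw K (c j) (zv m u v (Xe X b))

section
variable {m K r n : ℕ} {u v c : ℕ → ℕ → Bool} {σ : ℕ → Bool} {neg : Bool} (X : Fin m → Fin m → Bool)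

theorem Xe_big {b : ℕ} (h : m ≤ b) : Xe X b = fun _ => false := by
  funext l
  unfold Xe
  rw [dif_neg (by omega)]

theorem lw_zero (m : ℕ) (F : ℕ → Bool) : lw m F (fun _ => false) = 0 := by
  unfold lw
  exact Finset.sum_eq_zero fun l _ => by rw [zb_false, mul_zero]

theorem zv_zero (m : ℕ) (u v : ℕ → ℕ → Bool) : zv m u v (fun _ => false) = fun _ => false := by
  funext s
  unfold zv
  rw [lw_zero, zero_mul]
  rfl

theorem dv_big {b : ℕ} (h : m ≤ b) (j : ℕ) : dv X K u v c σ b j = 0 := by
  unfold dv
  rw [if_neg (by omega), mul_zero, zero_add, Xe_big X h, zv_zero, lw_zero]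

/-- the sequence of states -/
structure Run (m K r n : ℕ) (u v c : ℕ → ℕ → Bool) (σ : ℕ → Bool) (neg : Bool)
    (X : Fin m → Fin m → Bool) (x : ℕ → ℕ → Bool) : Prop where
  ini : ∀ i, x 0 i = decide (i = 0)
  nxt : ∀ τ i, i < n → zb (x (τ + 1) i) =
    sm n (((insP m K r n u v c σ neg).set (m + 2) 2 X).A i) (x τ) *
      sm n (((insP m K r n u v c σ neg).set (m + 2) 2 X).B i) (x τ)

variable {X} {x : ℕ → ℕ → Bool} (hx : Run m K r n u v c σ neg X x) (hn : 2 * m + 6 + K + 2 * r ≤ n)
  (hm : 1 ≤ m)
include hx hn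

theorem Run.out {i : ℕ} (h : ¬ (m + 2 ≤ i ∧ i < 2 * m + 2)) (τ : ℕ) (hi : i < n) :
    zb (x (τ + 1) i) = sm n ((insP m K r n u v c σ neg).A i) (x τ) *
      sm n ((insP m K r n u v c σ neg).B i) (x τ) := by
  rw [hx.nxt τ i hi]
  congr 2
  funext j
  exact set_out _ _ (by omega)

theorem Run.x0 (τ : ℕ) : x τ 0 = true := by
  induction τ with
  | zero => rw [hx.ini]; rfl
  | succ τ ih =>
    rw [← zbi, hx.out hn (by omega) τ (by omega), A0 (by omega), B0 (by omega), sm_one (by omega), ih,
      zb_true, mul_one]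

theorem Run.x1 (τ : ℕ) : x τ 1 = decide (1 ≤ τ) := by
  cases τ with
  | zero => rw [hx.ini]; rfl
  | succ τ =>
    rw [← zbi, hx.out hn (by omega) τ (by omega), A0 (by omega), B0 (by omega), sm_one (by omega),
      hx.x0 hn, zb_true, mul_one, decide_eq_true (by omega), zb_true]

/-- the rows whose second factor is one -/
theorem Run.rowB {i : ℕ} (h : i < 2 * m + 4) (τ : ℕ) :
    sm n ((insP m K r n u v c σ neg).B i) (x τ) = 1 := by
  rw [B0 h, sm_one (by omega), hx.x0 hn, zb_true]

theorem Run.p (b : ℕ) (hb : b < m) : ∀ τ, x τ (2 + b) = decide (τ = b + 1) := by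
  induction b with
  | zero =>
    intro τ
    cases τ with
    | zero => rw [hx.ini]; rfl
    | succ τ =>
      rw [← zbi, hx.out hn (by omega) τ (by omega), hx.rowB hn (by omega), mul_one, A2 (by omega),
        sm_xor, sm_one (by omega), sm_one (by omega), hx.x0 hn, hx.x1 hn]
      cases τ with
      | zero => decide
      | succ τ =>
        rw [decide_eq_true (by omega), decide_eq_false (by omega)]
        decide
  | succ b ih =>
    intro τ
    cases τ with
    | zero => rw [hx.ini, decide_eq_false (by omega), decide_eq_false (by omega)]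
    | succ τ =>
      rw [← zbi, hx.out hn (by omega) τ (by omega), hx.rowB hn (by omega), mul_one,
        A3 (by omega) (by omega), sm_one (by omega), show 2 + (b + 1) - 1 = 2 + b by omega, ih (by omega)]
      congr 1
      exact decide_eq_decide.2 (by omega)

theorem Run.lwp (F : ℕ → Bool) (τ : ℕ) :
    lw m F (fun b => x τ (2 + b)) = if 1 ≤ τ ∧ τ - 1 < m then zb (F (τ - 1)) else 0 := by
  unfold lw
  simp only
  split_ifs with h1
  · rw [Finset.sum_eq_single (τ - 1)]
    · rw [hx.p hn _ h1.2, decide_eq_true (show τ = τ - 1 + 1 by omega), zb_true, mul_one]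
    · intro b hb hne
      rw [hx.p hn _ (mem_range.1 hb), decide_eq_false (by omega), zb_false, mul_zero]
    · intro h
      exact absurd (mem_range.2 h1.2) h
  · refine Finset.sum_eq_zero fun b hb => ?_
    have := mem_range.1 hb
    rw [hx.p hn _ this, decide_eq_false (by omega), zb_false, mul_zero]

theorem Run.w (l : ℕ) (hl : l < m) (τ : ℕ) : x τ (m + 2 + l) = (decide (2 ≤ τ) && Xe X (τ - 2) l) := by
  cases τ with
  | zero =>
    rw [hx.ini, decide_eq_false (by omega)]
    rfl
  | succ τ =>
    rw [← zbi, hx.nxt τ _ (by omega)]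
    have e2 : ((insP m K r n u v c σ neg).set (m + 2) 2 X).B (m + 2 + l) =
        (insP m K r n u v c σ neg).B (m + 2 + l) := rfl
    rw [e2, hx.rowB hn (by omega), mul_one]
    have e1 : ((insP m K r n u v c σ neg).set (m + 2) 2 X).A (m + 2 + l) =
        fun j => decide (2 ≤ j ∧ j < 2 + m) && Xe X (j - 2) l := by
      funext j
      by_cases hj : 2 ≤ j ∧ j < 2 + m
      · obtain ⟨b, rfl⟩ : ∃ b, j = 2 + b := ⟨j - 2, by omega⟩
        have hb : b < m := by omega
        rw [decide_eq_true hj, Bool.true_and, Nat.add_sub_cancel_left]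
        unfold Xe
        rw [dif_pos ⟨hb, hl⟩]
        exact set_in (insP m K r n u v c σ neg) X ⟨b, hb⟩ ⟨l, hl⟩
      · rw [decide_eq_false hj, Bool.false_and, set_out _ _ (by omega)]
        unfold insP
        simp only
        rw [if_neg (by omega), if_neg (by omega), if_neg (by omega), if_pos (by omega)]
    rw [e1, sm_win (by omega) (fun j => Xe X j l), hx.lwp hn]
    split_ifs with h1
    · rw [decide_eq_true (show 2 ≤ τ + 1 by omega), Bool.true_and]
      congr 2
    · by_cases h2 : 1 ≤ τ
      · have h3 : Xe X (τ + 1 - 2) l = false := by rw [Xe_big X (by omega)]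
        rw [h3, Bool.and_false]
        rfl
      · rw [decide_eq_false (by omega), Bool.false_and]
        rfl

theorem Run.w' (τ : ℕ) (F : ℕ → Bool) : lw m F (fun l => x τ (m + 2 + l)) =
    if 2 ≤ τ then lw m F (Xe X (τ - 2)) else 0 := by
  unfold lw
  simp only
  split_ifs with h
  · refine Finset.sum_congr rfl fun l hl => ?_
    rw [hx.w hn l (mem_range.1 hl), decide_eq_true h, Bool.true_and]
  · refine Finset.sum_eq_zero fun l hl => ?_
    rw [hx.w hn l (mem_range.1 hl), decide_eq_false h, Bool.false_and, zb_false, mul_zero]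

include hm in
theorem Run.nu (τ : ℕ) : x τ (2 * m + 2) = decide (2 ≤ τ ∧ τ < m + 2) := by
  cases τ with
  | zero =>
    rw [hx.ini, decide_eq_false (by omega), decide_eq_false (by omega)]
  | succ τ =>
    rw [← zbi, hx.out hn (by omega) τ (by omega), hx.rowB hn (by omega), mul_one, A4 rfl hm,
      sm_win (by omega) (fun _ => true), hx.lwp hn]
    split_ifs with h1
    · rw [decide_eq_true (by omega)]
    · rw [decide_eq_false (by omega)]
      rfl

include hm in
theorem Run.nu' (τ : ℕ) : x τ (2 * m + 3) = decide (3 ≤ τ ∧ τ < m + 3) := by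
  cases τ with
  | zero =>
    rw [hx.ini, decide_eq_false (by omega), decide_eq_false (by omega)]
  | succ τ =>
    rw [← zbi, hx.out hn (by omega) τ (by omega), hx.rowB hn (by omega), mul_one, A5 rfl,
      sm_one (by omega), hx.nu hn hm]
    congr 1
    exact decide_eq_decide.2 (by omega)

theorem Run.z (s : ℕ) (hs : s < K) (τ : ℕ) :
    x τ (2 * m + 4 + s) = (decide (3 ≤ τ) && zv m u v (Xe X (τ - 3)) s) := by
  cases τ with
  | zero =>
    rw [hx.ini, decide_eq_false (by omega), decide_eq_false (by omega), Bool.false_and]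
  | succ τ =>
    rw [← zbi, hx.out hn (by omega) τ (by omega), A6 (by omega) (by omega), B6 (by omega) (by omega),
      Nat.add_sub_cancel_left, sm_win (by omega) (u s), sm_win (by omega) (v s), hx.w' hn, hx.w' hn]
    by_cases h : 2 ≤ τ
    · rw [if_pos h, if_pos h, decide_eq_true (show 3 ≤ τ + 1 by omega), Bool.true_and]
      unfold zv
      rw [zb_ob, show τ + 1 - 3 = τ - 2 by omega]
    · rw [if_neg h, if_neg h, decide_eq_false (by omega), Bool.false_and, zero_mul]
      rfl

theorem Run.z' (τ : ℕ) (F : ℕ → Bool) : lw K F (fun s => x τ (2 * m + 4 + s)) =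
    if 3 ≤ τ then lw K F (zv m u v (Xe X (τ - 3))) else 0 := by
  unfold lw
  simp only
  split_ifs with h
  · refine Finset.sum_congr rfl fun l hl => ?_
    rw [hx.z hn l (mem_range.1 hl), decide_eq_true h, Bool.true_and]
  · refine Finset.sum_eq_zero fun l hl => ?_
    rw [hx.z hn l (mem_range.1 hl), decide_eq_false h, Bool.false_and, zb_false, mul_zero]

include hm in
/-- the accumulators -/
theorem Run.acc (j : ℕ) (hj : j < r) (τ : ℕ) : x τ (2 * m + 4 + K + j) =
    decide (1 ≤ τ ∧ ∀ b < τ - 3, dv X K u v c σ b j = 0) := by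
  induction τ with
  | zero => rw [hx.ini, decide_eq_false (by omega), decide_eq_false fun h => absurd h.1 (by omega)]
  | succ τ ih =>
    rw [← zbi, hx.out hn (by omega) τ (by omega), A7 (by omega) (by omega), B7 (by omega) (by omega),
      Nat.add_sub_cancel_left, sm_xor, sm_xor, sm_xor, sm_xor, sm_and, sm_one (by omega), sm_one (by omega),
      sm_one (by omega), sm_one (by omega), sm_win (by omega) (c j), hx.z' hn, hx.x0 hn, hx.x1 hn,
      hx.nu' hn hm, ih]
    by_cases h1 : 1 ≤ τ
    · rw [decide_eq_true h1]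
      have h2 : zb true + zb true + zb (decide (1 ≤ τ ∧ ∀ b < τ - 3, dv X K u v c σ b j = 0)) =
          zb (decide (1 ≤ τ ∧ ∀ b < τ - 3, dv X K u v c σ b j = 0)) := by
        rw [show zb true + zb true = 0 by decide, zero_add]
      rw [h2]
      have h3 : zb true + zb (σ j) * zb (decide (3 ≤ τ ∧ τ < m + 3)) +
          (if 3 ≤ τ then lw K (c j) (zv m u v (Xe X (τ - 3))) else 0) =
          1 + if 3 ≤ τ then dv X K u v c σ (τ - 3) j else 0 := by
        unfold dv
        rw [zb_true]
        split_ifs with h4 h5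
        · rw [decide_eq_true (by omega), zb_true]
          ring
        · rw [decide_eq_false (by omega), zb_false]
          ring
        · rw [decide_eq_false (by omega), zb_false]
          ring
      rw [h3]
      by_cases h4 : 3 ≤ τ
      · rw [if_pos h4]
        have h5 : (1 ≤ τ + 1 ∧ ∀ b < τ + 1 - 3, dv X K u v c σ b j = 0) ↔
            (1 ≤ τ ∧ ∀ b < τ - 3, dv X K u v c σ b j = 0) ∧ dv X K u v c σ (τ - 3) j = 0 := by
          constructor
          · rintro ⟨_, h⟩
            exact ⟨⟨h1, fun b hb => h b (by omega)⟩, h _ (by omega)⟩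
          · rintro ⟨⟨_, h⟩, h'⟩
            refine ⟨by omega, fun b hb => ?_⟩
            by_cases hb' : b < τ - 3
            · exact h b hb'
            · rw [show b = τ - 3 by omega]
              exact h'
        by_cases h6 : dv X K u v c σ (τ - 3) j = 0
        · rw [h6, add_zero, mul_one]
          congr 1
          exact decide_eq_decide.2 ⟨fun h => (h5.2 ⟨h, h6⟩), fun h => (h5.1 h).1⟩
        · have h7 : dv X K u v c σ (τ - 3) j = 1 :=
            ((show ∀ a : ZMod 2, a = 0 ∨ a = 1 by decide) _).resolve_left h6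
          rw [decide_eq_false fun h => h6 (h5.1 h).2, h7, show (1 : ZMod 2) + 1 = 0 by decide, mul_zero]
          rfl
      · rw [if_neg h4, add_zero, mul_one]
        congr 1
        refine decide_eq_decide.2 ⟨fun h => ⟨by omega, fun b hb => by omega⟩, fun h => ⟨h1, fun b hb => by omega⟩⟩
    · obtain rfl : τ = 0 := by omega
      rw [decide_eq_false (show ¬ 1 ≤ 0 by omega), decide_eq_false (show ¬ (3 ≤ 0 ∧ 0 < m + 3) by omega),
        decide_eq_false (fun h => absurd h.1 (by omega)),
        if_neg (show ¬ 3 ≤ 0 by omega), decide_eq_true (⟨by omega, fun b hb => by omega⟩), zb_false, zb_true,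
        mul_zero]
      decide

include hm in
/-- the chain of conjunctions -/
theorem Run.ch (j : ℕ) (hj : j ≤ r) : ∀ τ, m + 4 + j ≤ τ → x τ (2 * m + 4 + K + r + j) =
    decide (∀ j' < j, ∀ b < m, dv X K u v c σ b j' = 0) := by
  induction j with
  | zero =>
    intro τ hτ
    obtain ⟨τ, rfl⟩ : ∃ τ', τ = τ' + 1 := ⟨τ - 1, by omega⟩
    rw [← zbi, hx.out hn (by omega) τ (by omega), A8 (by omega), B8 (by omega), sm_one (by omega),
      hx.x0 hn, decide_eq_true (fun j' hj' => absurd hj' (Nat.not_lt_zero _)), zb_true, mul_one]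
  | succ j ih =>
    intro τ hτ
    obtain ⟨τ, rfl⟩ : ∃ τ', τ = τ' + 1 := ⟨τ - 1, by omega⟩
    rw [← zbi, hx.out hn (by omega) τ (by omega), A9 (by omega) (by omega), B9 (by omega) (by omega),
      sm_one (by omega), sm_one (by omega), show 2 * m + 4 + K + r + (j + 1) - 1 = 2 * m + 4 + K + r + j by omega,
      show 2 * m + 4 + K + r + (j + 1) - (r + 1) = 2 * m + 4 + K + j by omega, ih (by omega) τ (by omega),
      hx.acc hn hm j (by omega), ← zb_and]
    congr 1
    rw [← Bool.decide_and]
    refine decide_eq_decide.2 ?_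
    constructor
    · rintro ⟨h1, h2⟩ j' hj' b hb
      have h2 := h2.2
      by_cases h3 : j' = j
      · subst h3
        exact h2 b (by omega)
      · exact h1 j' (by omega) b hb
    · intro h
      refine ⟨fun j' hj' b hb => h j' (by omega) b hb, ⟨by omega, fun b _ => ?_⟩⟩
      by_cases hb : b < m
      · exact h j (by omega) b hb
      · exact dv_big X (by omega) j

include hm in
/-- the last coordinate -/
theorem Run.last (τ : ℕ) (hτ : m + 5 + r ≤ τ) : x τ (n - 1) =
    xor neg (decide (∀ j < r, ∀ b < m, dv X K u v c σ b j = 0)) := by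
  obtain ⟨τ, rfl⟩ : ∃ τ', τ = τ' + 1 := ⟨τ - 1, by omega⟩
  rw [← zbi, hx.out hn (by omega) τ (by omega), A10 rfl hn, B10 rfl hn, sm_xor, sm_and,
    sm_one (by omega), sm_one (by omega), hx.x0 hn, show 2 * m + 4 + K + 2 * r = 2 * m + 4 + K + r + r by ring,
    hx.ch hn hm r le_rfl τ (by omega), zb_xor, zb_true, mul_one, mul_one]

end

end Pool.Agent.KMN
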