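import Pool.Agent.KMN.Abs
import Pool.Agent.KMN.HashC

/-! The choice of the parameters: time `N (log (n / S)) ^ δ` for nondeterministic programs. -/

namespace Pool.Agent.KMN

open Finset Pool.Agent.SemRO Pool.Agent.KNL Pool.Agent.KD Pool.Agent.KE Pool.Agent.KH Pool.Agent.KMR
open Pool.Agent.KQ (SbpB sbp_quant)

open Classical in
/-- the lower bound for the language `L` with the constants `δ` and `x0`, for distributions on
nondeterministic programs that accept only words of `L` -/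
def HardN (δ x0 : ℝ) (L : List Bool → Prop) : Prop :=
  ∀ N S : ℕ, 1 ≤ S → x0 * S ≤ dim N →
    ∀ (ι : Type) [Fintype ι] (w : ι → ℝ) (V Γ : ι → Type) [∀ i, Fintype (V i)]
      (P : ∀ i, SBP (V i) (Γ i) (Fin N)), (∀ i, 0 ≤ w i) → ∑ i, w i = 1 →
      (∀ i, Fintype.card (V i) ≤ 2 ^ S ∧ ∀ y l, (P i).AccWalk y l → L (List.ofFn y)) →
      ∀ T : ℕ, (∀ y, L (List.ofFn y) →
        1 / 2 ^ S ≤ ∑ i, if ∃ l, (P i).AccWalk y l ∧ l.length ≤ T then w i else 0) →
          N * Real.log (dim N / S) ^ δ ≤ T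

/-- the number of passes -/
theorem choose_passes (c : ℕ) : ∃ δ x0 : ℝ, 0 < δ ∧ 1 ≤ x0 ∧ ∀ x : ℝ, x0 ≤ x →
    ∃ k : ℕ, 2 ≤ k ∧ Real.log x ^ δ ≤ k ∧ (2 : ℝ) ^ (k ^ c) ≤ x := by
  refine ⟨1 / (2 * (c + 1)), Real.exp (4 ^ (c + 1)), by positivity, Real.one_le_exp (by positivity), ?_⟩
  intro x hxx0
  have hx0 : 0 < x := lt_of_lt_of_le (Real.exp_pos _) hxx0
  obtain ⟨y, hy⟩ : ∃ y : ℝ, y = Real.log x := ⟨_, rfl⟩
  rw [← hy]
  have hy4 : (4 : ℝ) ^ (c + 1) ≤ y := by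
    rw [hy, Real.le_log_iff_exp_le hx0]; exact hxx0
  have h4 : (4 : ℝ) ≤ 4 ^ (c + 1) := by
    calc (4 : ℝ) = 4 ^ 1 := by norm_num
      _ ≤ 4 ^ (c + 1) := pow_le_pow_right₀ (by norm_num) (by omega)
  have hy1 : (1 : ℝ) < y := by linarith
  have hy0 : 0 ≤ y := by linarith
  obtain ⟨z, hz⟩ : ∃ z : ℝ, z = y ^ (1 / (2 * ((c : ℝ) + 1))) := ⟨_, rfl⟩
  rw [← hz]
  have hz1 : 1 < z := by
    rw [hz]
    exact Real.one_lt_rpow hy1 (by positivity)
  obtain ⟨k, hk⟩ : ∃ k, k = ⌈z⌉₊ := ⟨_, rfl⟩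
  have hkz : z ≤ k := by rw [hk]; exact Nat.le_ceil _
  have hkz' : (k : ℝ) ≤ 2 * z := by
    have := Nat.ceil_lt_add_one (show 0 ≤ z by linarith)
    rw [← hk] at this
    linarith
  have hk2 : 2 ≤ k := by
    have h1 : (1 : ℝ) < k := by linarith
    have h2 : 1 < k := by exact_mod_cast h1
    omega
  have hzc : z ^ (c + 1) = Real.sqrt y := by
    rw [hz, ← Real.rpow_natCast, ← Real.rpow_mul hy0, Real.sqrt_eq_rpow]
    congr 1
    push_cast
    field_simp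
  have hsq : (2 : ℝ) ^ (c + 1) ≤ Real.sqrt y := by
    apply Real.le_sqrt_of_sq_le
    calc ((2 : ℝ) ^ (c + 1)) ^ 2 = 4 ^ (c + 1) := by rw [← pow_mul, mul_comm, pow_mul]; norm_num
      _ ≤ y := hy4
  have hkc : (k : ℝ) ^ (c + 1) ≤ y := by
    calc (k : ℝ) ^ (c + 1) ≤ (2 * z) ^ (c + 1) := pow_le_pow_left₀ (Nat.cast_nonneg _) hkz' _
      _ = 2 ^ (c + 1) * Real.sqrt y := by rw [mul_pow, hzc]
      _ ≤ Real.sqrt y * Real.sqrt y := mul_le_mul_of_nonneg_right hsq (Real.sqrt_nonneg _)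
      _ = y := Real.mul_self_sqrt hy0
  have hkc' : (k : ℝ) ^ c ≤ y := by
    refine le_trans (pow_le_pow_right₀ ?_ (by omega : c ≤ c + 1)) hkc
    have : (2 : ℝ) ≤ k := by exact_mod_cast hk2
    linarith
  refine ⟨k, hk2, hkz, ?_⟩
  have h1 : (2 : ℝ) ^ (k ^ c) = Real.exp (Real.log 2 * ((k ^ c : ℕ) : ℝ)) := by
    rw [Real.exp_mul, Real.exp_log (by norm_num), Real.rpow_natCast]
  rw [h1, ← Real.le_log_iff_exp_le hx0, ← hy]
  push_cast
  have h2 : Real.log 2 * (k : ℝ) ^ c ≤ 1 * (k : ℝ) ^ c := by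
    apply mul_le_mul_of_nonneg_right _ (by positivity)
    have := Real.log_two_lt_d9
    linarith
  linarith

open Classical in
/-- some hash value is popular -/
theorem exists_popular {n r K : ℕ} (u v : Fin K → Fin n → Bool) (c : Fin r → Fin K → Bool) :
    ∃ σ : Fin r → Bool, 2 ^ n ≤ 2 ^ r * (univ.filter fun x : Fin n → Bool => HF u v c σ x).card := by
  by_contra hcon
  push Not at hcon
  have h1 : ∀ x : Fin n → Bool, HF u v c (fun j => decide (hs u v c x j = 1)) x := by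
    intro x j
    exact (zb_dec _).symm
  have h2 : Fintype.card (Fin n → Bool) ≤ ∑ σ : Fin r → Bool,
      (univ.filter fun x : Fin n → Bool => HF u v c σ x).card := by
    rw [← Finset.card_univ]
    refine (Finset.card_le_card ?_).trans Finset.card_biUnion_le
    intro x _
    exact Finset.mem_biUnion.2 ⟨_, Finset.mem_univ _, Finset.mem_filter.2 ⟨Finset.mem_univ _, h1 x⟩⟩
  have h3 : 2 ^ r * ∑ σ : Fin r → Bool, (univ.filter fun x : Fin n → Bool => HF u v c σ x).card <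
      2 ^ r * 2 ^ n := by
    rw [Finset.mul_sum]
    have h4 : ∑ σ : Fin r → Bool, 2 ^ r * (univ.filter fun x : Fin n → Bool => HF u v c σ x).card <
        ∑ _σ : Fin r → Bool, 2 ^ n :=
      Finset.sum_lt_sum_of_nonempty Finset.univ_nonempty fun σ _ => hcon σ
    refine h4.trans_le (le_of_eq ?_)
    rw [Finset.sum_const, Finset.card_univ, Fintype.card_fun, Fintype.card_bool, Fintype.card_fin,
      smul_eq_mul]
  have h5 := Nat.lt_of_mul_lt_mul_left h3
  rw [Fintype.card_fun, Fintype.card_bool, Fintype.card_fin] at h2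
  omega

/-- the final numbers -/
theorem nd_num {n S B r : ℕ} (hB : 1 ≤ B) (hS : 1 ≤ S) (hn : 1000 * B ^ 4 * S ≤ n) (hr : 2 * B * r ≤ n)
    (h : (1 : ℝ) / 2 ^ S * (2 ^ n / 2 ^ r) ≤
      n * (((2 : ℝ) ^ S + n) ^ (2 * B) * (2 ^ n * Real.exp (-((n : ℝ) / B))))) : False := by
  have hBr : (1 : ℝ) ≤ B := by exact_mod_cast hB
  have hSr : (1 : ℝ) ≤ S := by exact_mod_cast hS
  have hnr : (1000 : ℝ) * B ^ 4 * S ≤ n := by exact_mod_cast hn
  have hrr : (2 : ℝ) * B * r ≤ n := by exact_mod_cast hr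
  have hB4 : (1 : ℝ) ≤ B ^ 4 := one_le_pow₀ hBr
  have hn1 : (1 : ℝ) ≤ n := by nlinarith
  have hn0 : (0 : ℝ) < n := by linarith
  have hB0 : (0 : ℝ) < B := by linarith
  -- exponential form
  have h1 : Real.exp ((n : ℝ) / B) ≤ 2 ^ S * 2 ^ r * n * ((2 : ℝ) ^ S + n) ^ (2 * B) := by
    rw [Real.exp_neg] at h
    have e1 : (0 : ℝ) < Real.exp ((n : ℝ) / B) := Real.exp_pos _
    have h2 : (2 : ℝ) ^ n * Real.exp ((n : ℝ) / B) ≤
        2 ^ n * (2 ^ S * 2 ^ r * n * ((2 : ℝ) ^ S + n) ^ (2 * B)) := by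
      have h3 := mul_le_mul_of_nonneg_right h
        (show (0 : ℝ) ≤ 2 ^ S * 2 ^ r * Real.exp ((n : ℝ) / B) by positivity)
      have e2 : (1 : ℝ) / 2 ^ S * (2 ^ n / 2 ^ r) * (2 ^ S * 2 ^ r * Real.exp ((n : ℝ) / B)) =
          2 ^ n * Real.exp ((n : ℝ) / B) := by
        field_simp
      have e3 : (n : ℝ) * (((2 : ℝ) ^ S + n) ^ (2 * B) * (2 ^ n * (Real.exp ((n : ℝ) / B))⁻¹)) *
          (2 ^ S * 2 ^ r * Real.exp ((n : ℝ) / B)) =
          2 ^ n * (2 ^ S * 2 ^ r * n * ((2 : ℝ) ^ S + n) ^ (2 * B)) := by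
        field_simp
      rw [e2, e3] at h3
      exact h3
    exact le_of_mul_le_mul_left h2 (by positivity)
  -- logarithms
  obtain ⟨s, hs⟩ : ∃ s : ℝ, s = Real.sqrt n := ⟨_, rfl⟩
  have hs0 : 0 ≤ s := by rw [hs]; exact Real.sqrt_nonneg _
  have hss : s * s = n := by rw [hs]; exact Real.mul_self_sqrt hn0.le
  have hlog2 : Real.log 2 ≤ 1 := by
    have := Real.log_two_lt_d9
    linarith
  have h2 : (n : ℝ) + 1 ≤ Real.exp (2 * s) := by
    have := Real.quadratic_le_exp_of_nonneg (show 0 ≤ 2 * s by linarith)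
    nlinarith
  have h3 : Real.log ((2 : ℝ) ^ S + n) ≤ S + 2 * s := by
    have h4 : (2 : ℝ) ^ S + n ≤ 2 ^ S * (n + 1) := by
      have : (1 : ℝ) ≤ 2 ^ S := one_le_pow₀ (by norm_num)
      nlinarith
    have h5 : Real.log ((2 : ℝ) ^ S + n) ≤ Real.log (2 ^ S * (n + 1)) :=
      Real.log_le_log (by positivity) h4
    rw [Real.log_mul (by positivity) (by positivity), Real.log_pow] at h5
    have h6 : Real.log (n + 1) ≤ 2 * s := by
      rw [Real.log_le_iff_le_exp (by positivity)]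
      exact h2
    have h7 : (S : ℝ) * Real.log 2 ≤ S * 1 := mul_le_mul_of_nonneg_left hlog2 (by linarith)
    linarith
  have h4 : (n : ℝ) / B ≤ S + r * Real.log 2 + 2 * s + 2 * B * (S + 2 * s) := by
    have h5 := Real.log_le_log (Real.exp_pos _) h1
    rw [Real.log_exp, Real.log_mul (by positivity) (by positivity), Real.log_mul (by positivity) (by positivity),
      Real.log_mul (by positivity) (by positivity), Real.log_pow, Real.log_pow, Real.log_pow] at h5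
    have h6 : Real.log n ≤ 2 * s := by
      rw [Real.log_le_iff_le_exp hn0]
      linarith
    have h7 : (S : ℝ) * Real.log 2 ≤ S * 1 := mul_le_mul_of_nonneg_left hlog2 (by linarith)
    have h8 : ((2 * B : ℕ) : ℝ) * Real.log ((2 : ℝ) ^ S + n) ≤ 2 * B * (S + 2 * s) := by
      push_cast
      exact mul_le_mul_of_nonneg_left h3 (by positivity)
    linarith
  have h5 : (r : ℝ) * Real.log 2 ≤ n / (2 * B) := by
    rw [le_div_iff₀ (by positivity)]
    have : (r : ℝ) * Real.log 2 * (2 * B) ≤ r * 1 * (2 * B) := by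
      refine mul_le_mul_of_nonneg_right (mul_le_mul_of_nonneg_left hlog2 (Nat.cast_nonneg _)) (by positivity)
    linarith
  have h6 : (n : ℝ) / B = n / (2 * B) + n / (2 * B) := by
    field_simp
    ring
  have h7 : (n : ℝ) / (2 * B) ≤ 3 * B * (S + 2 * s) := by
    have : (1 : ℝ) * (S + 2 * s) ≤ B * (S + 2 * s) := mul_le_mul_of_nonneg_right hBr (by positivity)
    linarith
  rw [div_le_iff₀ (by positivity)] at h7
  -- contradiction
  have hBB : (B : ℝ) ^ 2 ≤ B ^ 4 := pow_le_pow_right₀ hBr (by norm_num)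
  have h8 : (1000 : ℝ) * (B ^ 2 * S) ≤ n := by
    have := mul_le_mul_of_nonneg_right hBB (show (0 : ℝ) ≤ S by linarith)
    linarith
  have h9 : (31 * (B : ℝ) ^ 2) ≤ s := by
    by_contra hcon
    push Not at hcon
    have h10 : s * s < (31 * (B : ℝ) ^ 2) * (31 * (B : ℝ) ^ 2) := mul_self_lt_mul_self hs0 hcon
    have h11 : (1000 : ℝ) * B ^ 4 ≤ n := by
      have := mul_le_mul_of_nonneg_left hSr (show (0 : ℝ) ≤ 1000 * B ^ 4 by positivity)
      linarith
    rw [hss] at h10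
    have e : (31 * (B : ℝ) ^ 2) * (31 * (B : ℝ) ^ 2) = 961 * B ^ 4 := by ring
    rw [e] at h10
    have : (0 : ℝ) < B ^ 4 := by positivity
    linarith
  have h10 : (31 * (B : ℝ) ^ 2) * s ≤ s * s := mul_le_mul_of_nonneg_right h9 hs0
  rw [hss] at h10
  have e : (3 * (B : ℝ) * (S + 2 * s)) * (2 * B) = 6 * (B ^ 2 * S) + 12 * (B ^ 2 * s) := by ring
  rw [e] at h7
  have h11 : (31 : ℝ) * (B ^ 2 * s) ≤ n := by linarith
  linarith

/-- **The lower bound for nondeterministic programs.** -/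
theorem nd_time : ∃ δ x0 : ℝ, 0 < δ ∧ 1 ≤ x0 ∧ ∀ L : List Bool → Prop, NDBlocks L → HardN δ x0 L := by
  classical
  obtain ⟨c1, hc1⟩ := sbp_quant
  obtain ⟨δ, x0, hδ, hx0, hch⟩ := choose_passes (22 * c1 + 5)
  refine ⟨δ, x0, hδ, hx0, ?_⟩
  intro L hL N S hS hx ι _ w V Γ _ P hw0 hw1 hP T hT
  by_contra hcon
  push Not at hcon
  have hSr : (1 : ℝ) ≤ S := by exact_mod_cast hS
  have hS0 : (0 : ℝ) < S := by linarith
  obtain ⟨k, hk2, hkl, hk⟩ := hch (dim N / S) (by rw [le_div_iff₀ hS0]; exact hx)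
  obtain ⟨κ, hκ⟩ : ∃ κ, κ = 1261008 * k := ⟨_, rfl⟩
  obtain ⟨B, hB⟩ : ∃ B, B = 2 ^ (κ ^ c1) := ⟨_, rfl⟩
  have hB1 : 1 ≤ B := by rw [hB]; exact Nat.one_le_two_pow
  -- the size of the constants
  have hκk : κ ≤ k ^ 22 := by
    have h1 : 1261008 ≤ k ^ 21 := le_trans (by norm_num) (Nat.pow_le_pow_left hk2 21)
    calc κ = 1261008 * k := hκ
      _ ≤ k ^ 21 * k := Nat.mul_le_mul_right _ h1
      _ = k ^ 22 := by rw [← pow_succ]
  have hBk : 648 * (1000 * B ^ 4) ≤ 2 ^ (k ^ (22 * c1 + 5)) := by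
    have h1 : κ ^ c1 ≤ k ^ (22 * c1) := by
      rw [pow_mul]
      exact Nat.pow_le_pow_left hκk c1
    have h2 : 1 ≤ k ^ (22 * c1) := Nat.one_le_pow _ _ (by omega)
    have h3 : 32 ≤ k ^ 5 := le_trans (by norm_num) (Nat.pow_le_pow_left hk2 5)
    have h4 : 20 + 4 * κ ^ c1 ≤ k ^ (22 * c1 + 5) := by
      rw [pow_add]
      calc 20 + 4 * κ ^ c1 ≤ k ^ (22 * c1) * 32 := by omega
        _ ≤ _ := Nat.mul_le_mul_left _ h3
    calc 648 * (1000 * B ^ 4) ≤ 2 ^ 20 * B ^ 4 := by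
          rw [← mul_assoc]
          exact Nat.mul_le_mul_right _ (by norm_num)
      _ = 2 ^ (20 + 4 * κ ^ c1) := by
          rw [hB, ← pow_mul, ← pow_add]
          congr 1
          ring
      _ ≤ _ := Nat.pow_le_pow_right (by norm_num) h4
  have hdS : (648 * (1000 * B ^ 4)) * S ≤ dim N := by
    have h1 : ((648 * (1000 * B ^ 4) : ℕ) : ℝ) ≤ dim N / S := by
      refine le_trans ?_ hk
      exact_mod_cast hBk
    rw [le_div_iff₀ hS0] at h1
    exact_mod_cast h1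
  have hB4 : 1 ≤ B ^ 4 := Nat.one_le_pow _ _ (by omega)
  -- the length of the blocks
  obtain ⟨n, hn⟩ : ∃ n, n = bm N := ⟨_, rfl⟩
  have h648 : 648 ≤ dim N := by
    refine le_trans ?_ hdS
    have : 1 ≤ 1000 * B ^ 4 * S := Nat.one_le_iff_ne_zero.2 (by positivity)
    calc 648 = 648 * 1 := by norm_num
      _ ≤ 648 * (1000 * B ^ 4 * S) := Nat.mul_le_mul_left _ this
      _ = _ := by ring
  have hn1 : 1 ≤ bm N := by
    unfold bm
    omega
  have hnS : 1000 * B ^ 4 * S ≤ n := by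
    have h1 := dim_le_bm hn1
    have h2 : 648 * (1000 * B ^ 4 * S) ≤ 648 * n := by
      calc 648 * (1000 * B ^ 4 * S) = (648 * (1000 * B ^ 4)) * S := by ring
        _ ≤ dim N := hdS
        _ ≤ _ := by rw [hn]; omega
    omega
  have hNn := N_le hn1
  rw [← hn] at hNn
  have hBn4 : 1000 * B ^ 4 ≤ n := le_trans (Nat.le_mul_of_pos_right _ (by omega)) hnS
  have hB2 : B ^ 2 ≤ B ^ 4 := Nat.pow_le_pow_right (by omega) (by norm_num)
  have hBB : B ≤ B ^ 4 := Nat.le_self_pow (by norm_num) B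
  -- hash functions
  obtain ⟨s, hs⟩ : ∃ s, s = Nat.sqrt n := ⟨_, rfl⟩
  have hs1 : s * s ≤ n := by rw [hs]; exact Nat.sqrt_le n
  have hs2 : n < (s + 1) * (s + 1) := by rw [hs]; exact Nat.lt_succ_sqrt n
  have hsB : 31 * B ≤ s := by
    by_contra h
    push Not at h
    have h1 : (s + 1) * (s + 1) ≤ (31 * B) * (31 * B) := Nat.mul_le_mul h h
    have h2 : (31 * B) * (31 * B) = 961 * B ^ 2 := by ring
    omega
  obtain ⟨r, hr⟩ : ∃ r, r = n / (2 * B) := ⟨_, rfl⟩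
  have hr1 : 2 * B * r ≤ n := by rw [hr]; exact Nat.mul_div_le _ _
  have hr2 : 2 * (2 * (s + 1)) + 5 ≤ r := by
    rw [hr, Nat.le_div_iff_mul_le (by omega)]
    refine le_trans ?_ hs1
    have h1 : (2 * (2 * (s + 1)) + 5) * (31 * B) ≤ (2 * (2 * (s + 1)) + 5) * s := Nat.mul_le_mul_left _ hsB
    nlinarith
  have hrn : r ≤ n := by
    rw [hr]
    exact Nat.div_le_self _ _
  rw [← hn] at hn1
  obtain ⟨u, v, cc, hrf⟩ := exists_hash (n := n) (r := r) (t := 2 * (s + 1)) hn1 (by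
    have : (2 * (s + 1)) ^ 2 = 4 * ((s + 1) * (s + 1)) := by ring
    omega) hr2
  obtain ⟨σ, hσ⟩ := exists_popular u v cc
  obtain ⟨F, hF⟩ : ∃ F, F = univ.filter fun x : Fin n → Bool => HF u v cc σ x := ⟨_, rfl⟩
  rw [← hF] at hσ
  have hFr : (2 : ℝ) ^ n / 2 ^ r ≤ F.card := by
    rw [div_le_iff₀ (by positivity), mul_comm]
    exact_mod_cast hσ
  have hFne : F.Nonempty := by
    rw [← Finset.card_pos]
    have h1 : (0 : ℝ) < F.card := lt_of_lt_of_le (by positivity) hFr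
    exact_mod_cast h1
  subst hn
  obtain ⟨pos, hpos, hz⟩ := hL N hn1
  obtain ⟨z0, hz0⟩ := hz r hrn u v cc σ
  have hcore : SbpB κ B (bm N) := hc1 κ (by omega) B (bm N) (by rw [hB]) (by rw [← hB]; omega)
  have hBr : (1 : ℝ) ≤ B := by exact_mod_cast hB1
  have hL2 : ((2 ^ r : ℕ) : ℝ) ≤ Real.exp ((bm N : ℝ) / B) := by
    have h1 : ((2 ^ r : ℕ) : ℝ) ≤ Real.exp r := by
      push_cast
      calc (2 : ℝ) ^ r ≤ Real.exp 1 ^ r := pow_le_pow_left₀ (by norm_num) (by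
            have := Real.add_one_le_exp 1
            linarith) r
        _ = Real.exp r := by rw [← Real.exp_nat_mul, mul_one]
    refine h1.trans (Real.exp_le_exp.2 ?_)
    rw [le_div_iff₀ (by linarith)]
    have h2 : r * B ≤ bm N := by
      calc r * B ≤ 2 * B * r := by nlinarith
        _ ≤ _ := hr1
    exact_mod_cast h2
  have hTm : T ≤ κ * bm N * bm N := by
    have h1 : (T : ℝ) ≤ N * k := hcon.le.trans (mul_le_mul_of_nonneg_left hkl (Nat.cast_nonneg _))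
    have h2 : T ≤ N * k := by exact_mod_cast h1
    calc T ≤ N * k := h2
      _ ≤ 1261008 * (bm N * bm N) * k := Nat.mul_le_mul_right _ hNn
      _ = _ := by rw [hκ]; ring
  have key := nd_avg (κ := κ) (B := B) (L := 2 ^ r) (Tm := T) (S := S) hcore hn1 hpos F hFne (by
      have e : {x | x ∈ F} = {x | HF u v cc σ x} := by
        ext x
        rw [hF]
        simp
      rw [e]
      exact hrf σ) hL2 L z0 (by
      intro X
      rw [hz0 X, hF]
      simp) hTm ι w V Γ P hw0 hw1 hP (ρ := 1 / 2 ^ S) hT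
  refine nd_num hB1 hS hnS hr1 (le_trans ?_ key)
  exact mul_le_mul_of_nonneg_left hFr (by positivity)

end Pool.Agent.KMN
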