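import Pool.Agent.KMN.Defs

/-! A rank one constraint system that is solvable if and only if a sum of products of three linear forms
takes the value one at one of the blocks, for some choice of further coordinates. -/

namespace Pool.Agent.KMN

open Finset Pool.Agent.KE Pool.Agent.KH Pool.Agent.KMR
open Pool.Agent.KMQ (zb_true zb_false zb_sq zb_inj sum_window ob zb_ob onehot)

/-- the system without blocks: `M` coordinates of the forms, the first `m` of them are those of the blocks -/
def insRn (m M K : ℕ) (α β γ : ℕ → ℕ → Bool) : Ins where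
  A i j :=
    if i = 0 then decide (2 * m + 1 + M + K ≤ j ∧ j < 2 * m + 1 + M + K + K) && true
    else if i = 1 then decide (j = 1)
    else if i < m + 1 then decide (j = i) || decide (j = m + i - 1)
    else if i = m + 1 then decide (j = 2 * m)
    else if i < 2 * m + 1 then decide (j = i - m)
    else if i < 3 * m + 1 then false
    else if i < 3 * m + 1 + K then
      decide (2 * m + 1 ≤ j ∧ j < 2 * m + 1 + M) && α (i - (3 * m + 1)) (j - (2 * m + 1))
    else if i < 3 * m + 1 + 2 * K then decide (j = 2 * m + 1 + M + (i - (3 * m + 1 + K)))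
    else false
  B i j :=
    if i < m + 2 then decide (j = 0)
    else if i < 2 * m + 1 then decide (j = i - 1)
    else if i < 3 * m + 1 then decide (j = 0)
    else if i < 3 * m + 1 + K then
      decide (2 * m + 1 ≤ j ∧ j < 2 * m + 1 + M) && β (i - (3 * m + 1)) (j - (2 * m + 1))
    else if i < 3 * m + 1 + 2 * K then
      decide (2 * m + 1 ≤ j ∧ j < 2 * m + 1 + M) && γ (i - (3 * m + 1 + K)) (j - (2 * m + 1))
    else false
  C i j :=
    if i = 0 then decide (j = 0)
    else if i < m + 1 then decide (j = m + i)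
    else if i = m + 1 then decide (j = 0)
    else if i < 2 * m + 1 then false
    else if i < 3 * m + 1 then decide (j = i)
    else if i < 3 * m + 1 + 2 * K then decide (j = 2 * m + 1 + M + (i - (3 * m + 1)))
    else false
  r _ := false
  s _ := false

section
variable {m M K n : ℕ} (α β γ : ℕ → ℕ → Bool) (X : Fin m → Fin m → Bool) (x : ℕ → Bool)

theorem Rn0 (hm : 1 ≤ m) (hn : 2 * m + 1 + M + 2 * K ≤ n) :
    mv n ((insRn m M K α β γ).set (2 * m + 1) 1 X).A x 0 = ∑ s ∈ range K, zb (x (2 * m + 1 + M + K + s)) ∧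
      mv n (insRn m M K α β γ).B x 0 = zb (x 0) ∧ mv n (insRn m M K α β γ).C x 0 = zb (x 0) := by
  refine ⟨?_, ?_, ?_⟩
  · rw [mv_set X x (by omega), mv_win x (a := 2 * m + 1 + M + K) (k := K) (F := fun _ => true)
      (fun j => by unfold insRn; simp only; rw [if_pos trivial]) (by omega)]
    refine Finset.sum_congr rfl fun s _ => ?_
    rw [zb_true, one_mul]
  · exact mv_one x (fun j => by unfold insRn; simp only; rw [if_pos (by omega)]) (by omega)
  · exact mv_one x (fun j => by unfold insRn; simp only; rw [if_pos trivial]) (by omega)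

theorem Rn1 (hm : 1 ≤ m) (hn : 2 * m + 1 + M + 2 * K ≤ n) :
    mv n ((insRn m M K α β γ).set (2 * m + 1) 1 X).A x 1 = zb (x (1 + 0)) ∧
      mv n (insRn m M K α β γ).B x 1 = zb (x 0) ∧ mv n (insRn m M K α β γ).C x 1 = zb (x (m + 1 + 0)) := by
  refine ⟨?_, ?_, ?_⟩
  · rw [mv_set X x (by omega)]
    exact mv_one x (fun j => by unfold insRn; simp only; rw [if_neg (by omega), if_pos trivial]) (by omega)
  · exact mv_one x (fun j => by unfold insRn; simp only; rw [if_pos (by omega)]) (by omega)
  · exact mv_one x (fun j => by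
      unfold insRn; simp only; rw [if_neg (by omega), if_pos (by omega)]) (by omega)

theorem Rn2 (hn : 2 * m + 1 + M + 2 * K ≤ n) {b : ℕ} (hb : b + 1 < m) :
    mv n ((insRn m M K α β γ).set (2 * m + 1) 1 X).A x (1 + (b + 1)) =
        zb (x (1 + (b + 1))) + zb (x (m + 1 + b)) ∧
      mv n (insRn m M K α β γ).B x (1 + (b + 1)) = zb (x 0) ∧
      mv n (insRn m M K α β γ).C x (1 + (b + 1)) = zb (x (m + 1 + (b + 1))) := by
  refine ⟨?_, ?_, ?_⟩
  · rw [mv_set X x (by omega)]
    unfold mv
    have h : ∀ j, (insRn m M K α β γ).A (1 + (b + 1)) j =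
        (decide (j = 1 + (b + 1)) || decide (j = m + 1 + b)) := by
      intro j
      unfold insRn
      simp only
      rw [if_neg (by omega), if_neg (by omega), if_pos (by omega),
        show m + (1 + (b + 1)) - 1 = m + 1 + b by omega]
    rw [Finset.sum_congr rfl fun j _ => by rw [h], row_two x (by omega) (by omega) (by omega)]
  · exact mv_one x (fun j => by unfold insRn; simp only; rw [if_pos (by omega)]) (by omega)
  · exact mv_one x (fun j => by
      unfold insRn; simp only
      rw [if_neg (by omega), if_pos (by omega), show m + (1 + (b + 1)) = m + 1 + (b + 1) by omega])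
      (by omega)

theorem Rn3 (hm : 1 ≤ m) (hn : 2 * m + 1 + M + 2 * K ≤ n) :
    mv n ((insRn m M K α β γ).set (2 * m + 1) 1 X).A x (m + 1) = zb (x (m + 1 + (m - 1))) ∧
      mv n (insRn m M K α β γ).B x (m + 1) = zb (x 0) ∧ mv n (insRn m M K α β γ).C x (m + 1) = zb (x 0) := by
  refine ⟨?_, ?_, ?_⟩
  · rw [mv_set X x (by omega)]
    exact mv_one x (fun j => by
      unfold insRn; simp only
      rw [if_neg (by omega), if_neg (by omega), if_neg (by omega), if_pos trivial,
        show m + 1 + (m - 1) = 2 * m by omega]) (by omega)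
  · exact mv_one x (fun j => by unfold insRn; simp only; rw [if_pos (by omega)]) (by omega)
  · exact mv_one x (fun j => by
      unfold insRn; simp only; rw [if_neg (by omega), if_neg (by omega), if_pos trivial]) (by omega)

theorem Rn4 (hn : 2 * m + 1 + M + 2 * K ≤ n) {b : ℕ} (hb : b + 1 < m) :
    mv n ((insRn m M K α β γ).set (2 * m + 1) 1 X).A x (m + 1 + (b + 1)) = zb (x (1 + (b + 1))) ∧
      mv n (insRn m M K α β γ).B x (m + 1 + (b + 1)) = zb (x (m + 1 + b)) ∧
      mv n (insRn m M K α β γ).C x (m + 1 + (b + 1)) = 0 := by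
  refine ⟨?_, ?_, ?_⟩
  · rw [mv_set X x (by omega)]
    exact mv_one x (fun j => by
      unfold insRn; simp only
      rw [if_neg (by omega), if_neg (by omega), if_neg (by omega), if_neg (by omega), if_pos (by omega),
        show m + 1 + (b + 1) - m = 1 + (b + 1) by omega]) (by omega)
  · exact mv_one x (fun j => by
      unfold insRn; simp only
      rw [if_neg (by omega), if_pos (by omega), show m + 1 + (b + 1) - 1 = m + 1 + b by omega]) (by omega)
  · exact mv_zero x fun j => by
      unfold insRn; simp only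
      rw [if_neg (by omega), if_neg (by omega), if_neg (by omega), if_pos (by omega)]

theorem Rn5 (hM : m ≤ M) (hn : 2 * m + 1 + M + 2 * K ≤ n) {l : ℕ} (hl : l < m) :
    mv n ((insRn m M K α β γ).set (2 * m + 1) 1 X).A x (2 * m + 1 + l) =
        ∑ b : Fin m, zb (X b ⟨l, hl⟩) * zb (x (1 + b)) ∧
      mv n (insRn m M K α β γ).B x (2 * m + 1 + l) = zb (x 0) ∧
      mv n (insRn m M K α β γ).C x (2 * m + 1 + l) = zb (x (2 * m + 1 + l)) := by
  refine ⟨?_, ?_, ?_⟩
  · refine mv_block X x hl (by omega) fun j => ?_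
    unfold insRn
    simp only
    rw [if_neg (by omega), if_neg (by omega), if_neg (by omega), if_neg (by omega), if_neg (by omega),
      if_pos (by omega)]
  · exact mv_one x (fun j => by
      unfold insRn; simp only; rw [if_neg (by omega), if_neg (by omega), if_pos (by omega)]) (by omega)
  · exact mv_one x (fun j => by
      unfold insRn; simp only
      rw [if_neg (by omega), if_neg (by omega), if_neg (by omega), if_neg (by omega), if_pos (by omega)])
      (by omega)

theorem Rn6 (hm : 1 ≤ m) (hn : 2 * m + 1 + M + 2 * K ≤ n) {s : ℕ} (hs : s < K) :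
    mv n ((insRn m M K α β γ).set (2 * m + 1) 1 X).A x (3 * m + 1 + s) =
        lw M (α s) (fun l => x (2 * m + 1 + l)) ∧
      mv n (insRn m M K α β γ).B x (3 * m + 1 + s) = lw M (β s) (fun l => x (2 * m + 1 + l)) ∧
      mv n (insRn m M K α β γ).C x (3 * m + 1 + s) = zb (x (2 * m + 1 + M + s)) := by
  refine ⟨?_, ?_, ?_⟩
  · rw [mv_set X x (by omega)]
    exact mv_win x (fun j => by
      unfold insRn; simp only
      rw [if_neg (by omega), if_neg (by omega), if_neg (by omega), if_neg (by omega), if_neg (by omega),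
        if_neg (by omega), if_pos (by omega), Nat.add_sub_cancel_left]) (by omega)
  · exact mv_win x (fun j => by
      unfold insRn; simp only
      rw [if_neg (by omega), if_neg (by omega), if_neg (by omega), if_pos (by omega),
        Nat.add_sub_cancel_left]) (by omega)
  · exact mv_one x (fun j => by
      unfold insRn; simp only
      rw [if_neg (by omega), if_neg (by omega), if_neg (by omega), if_neg (by omega), if_neg (by omega),
        if_pos (by omega), Nat.add_sub_cancel_left]) (by omega)

theorem Rn7 (hm : 1 ≤ m) (hn : 2 * m + 1 + M + 2 * K ≤ n) {s : ℕ} (hs : s < K) :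
    mv n ((insRn m M K α β γ).set (2 * m + 1) 1 X).A x (3 * m + 1 + K + s) =
        zb (x (2 * m + 1 + M + s)) ∧
      mv n (insRn m M K α β γ).B x (3 * m + 1 + K + s) = lw M (γ s) (fun l => x (2 * m + 1 + l)) ∧
      mv n (insRn m M K α β γ).C x (3 * m + 1 + K + s) = zb (x (2 * m + 1 + M + K + s)) := by
  refine ⟨?_, ?_, ?_⟩
  · rw [mv_set X x (by omega)]
    exact mv_one x (fun j => by
      unfold insRn; simp only
      rw [if_neg (by omega), if_neg (by omega), if_neg (by omega), if_neg (by omega), if_neg (by omega),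
        if_neg (by omega), if_neg (by omega), if_pos (by omega), Nat.add_sub_cancel_left]) (by omega)
  · exact mv_win x (fun j => by
      unfold insRn; simp only
      rw [if_neg (by omega), if_neg (by omega), if_neg (by omega), if_neg (by omega), if_pos (by omega),
        Nat.add_sub_cancel_left]) (by omega)
  · exact mv_one x (fun j => by
      unfold insRn; simp only
      rw [if_neg (by omega), if_neg (by omega), if_neg (by omega), if_neg (by omega), if_neg (by omega),
        if_pos (by omega), show 2 * m + 1 + M + (3 * m + 1 + K + s - (3 * m + 1)) =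
          2 * m + 1 + M + K + s by omega])
      (by omega)

theorem Rn8 (hm : 1 ≤ m) {i : ℕ} (h : 3 * m + 1 + 2 * K ≤ i) :
    mv n ((insRn m M K α β γ).set (2 * m + 1) 1 X).A x i = 0 ∧ mv n (insRn m M K α β γ).C x i = 0 := by
  refine ⟨?_, ?_⟩
  · rw [mv_set X x (by omega)]
    exact mv_zero x fun j => by
      unfold insRn; simp only
      rw [if_neg (by omega), if_neg (by omega), if_neg (by omega), if_neg (by omega), if_neg (by omega),
        if_neg (by omega), if_neg (by omega), if_neg (by omega)]
  · exact mv_zero x fun j => by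
      unfold insRn; simp only
      rw [if_neg (by omega), if_neg (by omega), if_neg (by omega), if_neg (by omega), if_neg (by omega),
        if_neg (by omega)]

/-- the system in terms of its parts -/
structure SolN (m M K : ℕ) (α β γ : ℕ → ℕ → Bool) (X : Fin m → Fin m → Bool) (x : ℕ → Bool) : Prop where
  e0 : (∑ s ∈ range K, zb (x (2 * m + 1 + M + K + s))) * zb (x 0) = zb (x 0)
  e1 : zb (x (1 + 0)) * zb (x 0) = zb (x (m + 1 + 0))
  e2 : ∀ b, b + 1 < m → (zb (x (1 + (b + 1))) + zb (x (m + 1 + b))) * zb (x 0) =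
    zb (x (m + 1 + (b + 1)))
  e3 : zb (x (m + 1 + (m - 1))) * zb (x 0) = zb (x 0)
  e4 : ∀ b, b + 1 < m → zb (x (1 + (b + 1))) * zb (x (m + 1 + b)) = 0
  e5 : ∀ l (hl : l < m), (∑ b : Fin m, zb (X b ⟨l, hl⟩) * zb (x (1 + b))) * zb (x 0) =
    zb (x (2 * m + 1 + l))
  e6 : ∀ s < K, lw M (α s) (fun l => x (2 * m + 1 + l)) * lw M (β s) (fun l => x (2 * m + 1 + l)) =
    zb (x (2 * m + 1 + M + s))
  e7 : ∀ s < K, zb (x (2 * m + 1 + M + s)) * lw M (γ s) (fun l => x (2 * m + 1 + l)) =
    zb (x (2 * m + 1 + M + K + s))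

theorem solN_iff (hm : 1 ≤ m) (hM : m ≤ M) (hn : 2 * m + 1 + M + 2 * K ≤ n) :
    (∀ i < n, mv n ((insRn m M K α β γ).set (2 * m + 1) 1 X).A x i *
      mv n (insRn m M K α β γ).B x i = mv n (insRn m M K α β γ).C x i) ↔ SolN m M K α β γ X x := by
  constructor
  · intro h
    refine ⟨?_, ?_, ?_, ?_, ?_, ?_, ?_, ?_⟩
    · obtain ⟨h1, h2, h3⟩ := Rn0 α β γ X x hm hn
      have := h 0 (by omega)
      rwa [h1, h2, h3] at this
    · obtain ⟨h1, h2, h3⟩ := Rn1 α β γ X x hm hn
      have := h 1 (by omega)
      rwa [h1, h2, h3] at this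
    · intro b hb
      obtain ⟨h1, h2, h3⟩ := Rn2 α β γ X x hn hb
      have := h (1 + (b + 1)) (by omega)
      rwa [h1, h2, h3] at this
    · obtain ⟨h1, h2, h3⟩ := Rn3 α β γ X x hm hn
      have := h (m + 1) (by omega)
      rwa [h1, h2, h3] at this
    · intro b hb
      obtain ⟨h1, h2, h3⟩ := Rn4 α β γ X x hn hb
      have := h (m + 1 + (b + 1)) (by omega)
      rwa [h1, h2, h3] at this
    · intro l hl
      obtain ⟨h1, h2, h3⟩ := Rn5 α β γ X x hM hn hl
      have := h (2 * m + 1 + l) (by omega)
      rwa [h1, h2, h3] at this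
    · intro s hs
      obtain ⟨h1, h2, h3⟩ := Rn6 α β γ X x hm hn hs
      have := h (3 * m + 1 + s) (by omega)
      rwa [h1, h2, h3] at this
    · intro s hs
      obtain ⟨h1, h2, h3⟩ := Rn7 α β γ X x hm hn hs
      have := h (3 * m + 1 + K + s) (by omega)
      rwa [h1, h2, h3] at this
  · intro h i hi
    by_cases c0 : i = 0
    · subst c0
      obtain ⟨h1, h2, h3⟩ := Rn0 α β γ X x hm hn
      rw [h1, h2, h3]
      exact h.e0
    by_cases c1 : i = 1
    · subst c1
      obtain ⟨h1, h2, h3⟩ := Rn1 α β γ X x hm hn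
      rw [h1, h2, h3]
      exact h.e1
    by_cases c2 : i < m + 1
    · obtain ⟨b, rfl⟩ : ∃ b, i = 1 + (b + 1) := ⟨i - 2, by omega⟩
      obtain ⟨h1, h2, h3⟩ := Rn2 α β γ X x hn (b := b) (by omega)
      rw [h1, h2, h3]
      exact h.e2 b (by omega)
    by_cases c3 : i = m + 1
    · subst c3
      obtain ⟨h1, h2, h3⟩ := Rn3 α β γ X x hm hn
      rw [h1, h2, h3]
      exact h.e3
    by_cases c4 : i < 2 * m + 1
    · obtain ⟨b, rfl⟩ : ∃ b, i = m + 1 + (b + 1) := ⟨i - (m + 2), by omega⟩
      obtain ⟨h1, h2, h3⟩ := Rn4 α β γ X x hn (b := b) (by omega)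
      rw [h1, h2, h3]
      exact h.e4 b (by omega)
    by_cases c5 : i < 3 * m + 1
    · obtain ⟨l, rfl⟩ : ∃ l, i = 2 * m + 1 + l := ⟨i - (2 * m + 1), by omega⟩
      obtain ⟨h1, h2, h3⟩ := Rn5 α β γ X x hM hn (l := l) (by omega)
      rw [h1, h2, h3]
      exact h.e5 l (by omega)
    by_cases c6 : i < 3 * m + 1 + K
    · obtain ⟨s, rfl⟩ : ∃ s, i = 3 * m + 1 + s := ⟨i - (3 * m + 1), by omega⟩
      obtain ⟨h1, h2, h3⟩ := Rn6 α β γ X x hm hn (s := s) (by omega)
      rw [h1, h2, h3]
      exact h.e6 s (by omega)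
    by_cases c7 : i < 3 * m + 1 + 2 * K
    · obtain ⟨s, rfl⟩ : ∃ s, i = 3 * m + 1 + K + s := ⟨i - (3 * m + 1 + K), by omega⟩
      obtain ⟨h1, h2, h3⟩ := Rn7 α β γ X x hm hn (s := s) (by omega)
      rw [h1, h2, h3]
      exact h.e7 s (by omega)
    · obtain ⟨h1, h3⟩ := Rn8 (m := m) (M := M) (K := K) (n := n) α β γ X x hm (i := i) (by omega)
      rw [h1, h3, zero_mul]

end

/-- the solution that selects the block `b0` -/
def solRn (m M K : ℕ) (α β γ : ℕ → ℕ → Bool) (b0 : ℕ) (w : ℕ → Bool) (j : ℕ) : Bool :=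
  if j = 0 then true
  else if j < m + 1 then decide (j = 1 + b0)
  else if j < 2 * m + 1 then decide (m + 1 + b0 ≤ j)
  else if j < 2 * m + 1 + M then w (j - (2 * m + 1))
  else if j < 2 * m + 1 + M + K then tS M α β w (j - (2 * m + 1 + M))
  else rS M α β γ w (j - (2 * m + 1 + M + K))

/-- **The system with the blocks `X`.** -/
theorem sysN_iff {m M K n : ℕ} (hm : 1 ≤ m) (hM : m ≤ M) (hn : 2 * m + 1 + M + 2 * K ≤ n)
    (α β γ : ℕ → ℕ → Bool) (X : Fin m → Fin m → Bool) :
    (∃ x : ℕ → Bool, x 0 = true ∧ ∀ i < n,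
      mv n ((insRn m M K α β γ).set (2 * m + 1) 1 X).A x i *
        mv n (insRn m M K α β γ).B x i = mv n (insRn m M K α β γ).C x i) ↔
      ∃ (b : Fin m) (w : ℕ → Bool), (∀ l : Fin m, w l = X b l) ∧
        ∑ s ∈ range K, lw M (α s) w * lw M (β s) w * lw M (γ s) w = 1 := by
  constructor
  · rintro ⟨x, hx0, hx⟩
    have h := (solN_iff α β γ X x hm hM hn).1 hx
    have h0 := h.e0
    have h1 := h.e1
    have h3 := h.e3
    rw [hx0, zb_true, mul_one] at h0 h1 h3
    obtain ⟨i0, hi0, hu⟩ := onehot hm (fun b => x (1 + b)) (fun b => x (m + 1 + b))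
      (by
        rw [show x (m + 1 + 0) = x (1 + 0) from zb_inj.1 h1.symm]
        generalize x (1 + 0) = a
        cases a <;> decide)
      (fun i hi => by
        have := h.e2 i hi
        rw [hx0, zb_true, mul_one] at this
        rw [← this]
        generalize x (1 + (i + 1)) = a
        generalize x (m + 1 + i) = b
        cases a <;> cases b <;> decide)
      (fun i hi => h.e4 i hi) h3
    refine ⟨⟨i0, hi0⟩, fun l => x (2 * m + 1 + l), ?_, ?_⟩
    · intro l
      have := h.e5 l l.2
      rw [hx0, zb_true, mul_one, Finset.sum_eq_single (⟨i0, hi0⟩ : Fin m)] at this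
      · have h5 : x (1 + i0) = true := by
          have := hu i0 hi0
          rw [this]
          simp
        rw [h5, zb_true, mul_one] at this
        exact (zb_inj.1 this).symm
      · intro b _ hb
        have h5 : x (1 + b) = false := by
          have := hu b b.2
          rw [this, decide_eq_false (fun hc => hb (Fin.ext hc))]
        rw [h5, zb_false, mul_zero]
      · intro hc
        exact absurd (Finset.mem_univ _) hc
    · rw [← h0]
      refine Finset.sum_congr rfl fun s hs => ?_
      rw [← h.e7 s (mem_range.1 hs), ← h.e6 s (mem_range.1 hs)]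
  · rintro ⟨b, w, hwX, hb⟩
    obtain ⟨x, hx⟩ : ∃ x, x = solRn m M K α β γ b w := ⟨_, rfl⟩
    have x0 : x 0 = true := by rw [hx]; unfold solRn; rw [if_pos rfl]
    have xu : ∀ j < m, x (1 + j) = decide (j = (b : ℕ)) := by
      intro j hj
      rw [hx]
      unfold solRn
      rw [if_neg (by omega), if_pos (by omega)]
      congr 1
      rw [eq_iff_iff]
      omega
    have xp : ∀ j < m, x (m + 1 + j) = decide ((b : ℕ) ≤ j) := by
      intro j hj
      rw [hx]
      unfold solRn
      rw [if_neg (by omega), if_neg (by omega), if_pos (by omega)]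
      congr 1
      rw [eq_iff_iff]
      omega
    have xw : ∀ l < M, x (2 * m + 1 + l) = w l := by
      intro l hl
      rw [hx]
      unfold solRn
      rw [if_neg (by omega), if_neg (by omega), if_neg (by omega), if_pos (by omega),
        Nat.add_sub_cancel_left]
    have xt : ∀ s < K, x (2 * m + 1 + M + s) = tS M α β w s := by
      intro s hs
      rw [hx]
      unfold solRn
      rw [if_neg (by omega), if_neg (by omega), if_neg (by omega), if_neg (by omega), if_pos (by omega),
        Nat.add_sub_cancel_left]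
    have xr : ∀ s, x (2 * m + 1 + M + K + s) = rS M α β γ w s := by
      intro s
      rw [hx]
      unfold solRn
      rw [if_neg (by omega), if_neg (by omega), if_neg (by omega), if_neg (by omega), if_neg (by omega),
        Nat.add_sub_cancel_left]
    have hlw : ∀ F : ℕ → Bool, lw M F (fun l => x (2 * m + 1 + l)) = lw M F w :=
      fun F => lw_congr fun l hl => xw l hl
    have hb2 := b.2
    refine ⟨x, x0, (solN_iff α β γ X x hm hM hn).2 ⟨?_, ?_, ?_, ?_, ?_, ?_, ?_, ?_⟩⟩
    · rw [x0, zb_true, mul_one, ← hb]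
      refine Finset.sum_congr rfl fun s _ => ?_
      rw [xr]
      unfold rS
      rw [zb_ob]
      unfold tS
      rw [zb_ob]
    · rw [x0, zb_true, mul_one, xu 0 (by omega), xp 0 (by omega)]
      congr 2
      rw [eq_iff_iff]
      omega
    · intro j hj
      rw [x0, zb_true, mul_one, xu (j + 1) hj, xp j (by omega), xp (j + 1) hj]
      by_cases c1 : j + 1 = (b : ℕ)
      · rw [decide_eq_true c1, decide_eq_false (by omega), decide_eq_true (by omega)]
        decide
      · rw [decide_eq_false c1]
        by_cases c2 : (b : ℕ) ≤ j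
        · rw [decide_eq_true c2, decide_eq_true (by omega)]
          decide
        · rw [decide_eq_false c2, decide_eq_false (by omega)]
          decide
    · rw [x0, zb_true, mul_one, xp (m - 1) (by omega), decide_eq_true (by omega), zb_true]
    · intro j hj
      rw [xu (j + 1) hj, xp j (by omega)]
      by_cases c1 : j + 1 = (b : ℕ)
      · rw [decide_eq_true c1, decide_eq_false (by omega)]
        decide
      · rw [decide_eq_false c1, zb_false, zero_mul]
    · intro l hl
      rw [x0, zb_true, mul_one, Finset.sum_eq_single b, xu b b.2, decide_eq_true rfl, zb_true, mul_one,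
        xw l (by omega), ← hwX ⟨l, hl⟩]
      · intro c _ hc
        rw [xu c c.2, decide_eq_false (fun h => hc (Fin.ext h)), zb_false, mul_zero]
      · intro hc
        exact absurd (Finset.mem_univ _) hc
    · intro s hs
      rw [xt s hs, hlw, hlw]
      unfold tS
      rw [zb_ob]
    · intro s hs
      rw [xt s hs, hlw, xr]
      unfold rS
      rw [zb_ob]

/-! ### The hash functions as products of three linear forms -/

section hash
variable {m K r : ℕ} (u v : Fin K → Fin m → Bool) (c : Fin r → Fin K → Bool) (σ : Fin r → Bool)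

/-- the coefficients of `σ` in the free coordinates -/
def sg (m : ℕ) {r : ℕ} (σ : Fin r → Bool) (l : ℕ) : Bool :=
  if h : m ≤ l ∧ l - m < r then σ ⟨l - m, h.2⟩ else false

/-- the first forms -/
def aF (u : Fin K → Fin m → Bool) (σ : Fin r → Bool) (s l : ℕ) : Bool :=
  if s < K then ex u s l else sg m σ l

/-- the third forms -/
def cF (m : ℕ) {K r : ℕ} (c : Fin r → Fin K → Bool) (σ : Fin r → Bool) (s l : ℕ) : Bool :=
  if h : s < K then sg m (fun j => c j ⟨s, h⟩) l else sg m σ l

theorem lw_sg {M : ℕ} (hM : m + r ≤ M) (w : ℕ → Bool) :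
    lw M (sg m σ) w = ∑ j : Fin r, zb (σ j) * zb (w (m + j)) := by
  unfold lw
  obtain ⟨d, rfl⟩ : ∃ d, M = m + r + d := ⟨M - (m + r), by omega⟩
  rw [Finset.sum_range_add, Finset.sum_range_add]
  have h1 : ∑ l ∈ range m, zb (sg m σ l) * zb (w l) = 0 := Finset.sum_eq_zero fun l hl => by
    have := mem_range.1 hl
    unfold sg
    rw [dif_neg (by omega), zb_false, zero_mul]
  have h2 : ∑ l ∈ range d, zb (sg m σ (m + r + l)) * zb (w (m + r + l)) = 0 :=
    Finset.sum_eq_zero fun l hl => by
      unfold sg
      rw [dif_neg (by omega), zb_false, zero_mul]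
  rw [h1, h2, zero_add, add_zero, Finset.sum_range]
  refine Finset.sum_congr rfl fun j _ => ?_
  unfold sg
  rw [dif_pos ⟨by omega, by omega⟩]
  congr 3
  exact Fin.ext (by simp)

theorem lw_ex' {M : ℕ} (hM : m ≤ M) (x : Fin m → Bool) (w : ℕ → Bool) (hw : ∀ l : Fin m, w l = x l)
    (s : Fin K) : lw M (ex u s) w = lin (u s) x := by
  rw [← lw_ex u x w hw s]
  unfold lw
  obtain ⟨d, rfl⟩ : ∃ d, M = m + d := ⟨M - m, by omega⟩
  rw [Finset.sum_range_add]
  have h2 : ∑ l ∈ range d, zb (ex u s (m + l)) * zb (w (m + l)) = 0 := Finset.sum_eq_zero fun l hl => by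
    unfold ex
    rw [dif_neg (by omega), zb_false, zero_mul]
  rw [h2, add_zero]

theorem sum_hash {M : ℕ} (hM : m + r ≤ M) (x : Fin m → Bool) (w : ℕ → Bool)
    (hw : ∀ l : Fin m, w l = x l) :
    ∑ s ∈ range (K + 1), lw M (aF u σ s) w * lw M (aF v σ s) w * lw M (cF m c σ s) w =
      ∑ j : Fin r, (hs u v c x j + zb (σ j)) * zb (w (m + j)) := by
  rw [Finset.sum_range_succ]
  have h1 : ∀ s : Fin K, lw M (aF u σ s) w * lw M (aF v σ s) w * lw M (cF m c σ s) w =
      ∑ j : Fin r, zb (c j s) * (lin (u s) x * lin (v s) x) * zb (w (m + j)) := by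
    intro s
    have e1 : aF u σ (s : ℕ) = ex u s := by
      funext l
      unfold aF
      rw [if_pos s.2]
    have e2 : aF v σ (s : ℕ) = ex v s := by
      funext l
      unfold aF
      rw [if_pos s.2]
    have e3 : cF m c σ (s : ℕ) = sg m (fun j => c j s) := by
      funext l
      unfold cF
      rw [dif_pos s.2]
    rw [e1, e2, e3, lw_ex' u (by omega) x w hw s, lw_ex' v (by omega) x w hw s, lw_sg _ hM, Finset.mul_sum]
    refine Finset.sum_congr rfl fun j _ => ?_
    ring
  have h2 : ∑ s ∈ range K, lw M (aF u σ s) w * lw M (aF v σ s) w * lw M (cF m c σ s) w =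
      ∑ j : Fin r, hs u v c x j * zb (w (m + j)) := by
    rw [Finset.sum_range, Finset.sum_congr rfl fun s _ => h1 s, Finset.sum_comm]
    refine Finset.sum_congr rfl fun j _ => ?_
    unfold hs
    rw [Finset.sum_mul]
  have h3 : lw M (aF u σ K) w * lw M (aF v σ K) w * lw M (cF m c σ K) w =
      ∑ j : Fin r, zb (σ j) * zb (w (m + j)) := by
    have e1 : aF u σ K = sg m σ := by
      funext l
      unfold aF
      rw [if_neg (by omega)]
    have e2 : aF v σ K = sg m σ := by
      funext l
      unfold aF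
      rw [if_neg (by omega)]
    have e3 : cF m c σ K = sg m σ := by
      funext l
      unfold cF
      rw [dif_neg (by omega)]
    rw [e1, e2, e3, lw_sg _ hM]
    have : ∀ a : ZMod 2, a * a * a = a := by decide
    exact this _
  rw [h2, h3, ← Finset.sum_add_distrib]
  refine Finset.sum_congr rfl fun j _ => ?_
  ring

/-- the further coordinates find out whether the hash value is wrong -/
theorem hash_iff {M : ℕ} (hM : m + r ≤ M) (x : Fin m → Bool) :
    (∃ w : ℕ → Bool, (∀ l : Fin m, w l = x l) ∧
      ∑ s ∈ range (K + 1), lw M (aF u σ s) w * lw M (aF v σ s) w * lw M (cF m c σ s) w = 1) ↔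
      ¬ HF u v c σ x := by
  have key : ∀ a b : ZMod 2, a + b ≠ 0 ↔ a ≠ b := by decide
  constructor
  · rintro ⟨w, hw, h⟩ hH
    rw [sum_hash u v c σ hM x w hw] at h
    rw [Finset.sum_eq_zero fun j _ => by
      rw [hH j]
      have : ∀ a b : ZMod 2, (a + a) * b = 0 := by decide
      exact this _ _] at h
    exact absurd h (by decide)
  · intro h
    unfold HF at h
    push Not at h
    obtain ⟨j, hj⟩ := h
    obtain ⟨w, hw⟩ : ∃ w : ℕ → Bool, w = fun l => if h : l < m then x ⟨l, h⟩ else decide (l = m + j) :=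
      ⟨_, rfl⟩
    have hwx : ∀ l : Fin m, w l = x l := fun l => by rw [hw]; simp only; rw [dif_pos l.2]
    refine ⟨w, hwx, ?_⟩
    rw [sum_hash u v c σ hM x w hwx, Finset.sum_eq_single j]
    · have h1 : w (m + j) = true := by
        rw [hw]
        simp only
        rw [dif_neg (by omega)]
        simp
      rw [h1, zb_true, mul_one]
      have h2 : ∀ a : ZMod 2, a ≠ 0 → a = 1 := by decide
      exact h2 _ ((key _ _).2 hj)
    · intro i _ hi
      have h1 : w (m + i) = false := by
        rw [hw]
        simp only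
        rw [dif_neg (by omega), decide_eq_false (fun hc => hi (Fin.ext (by omega)))]
      rw [h1, zb_false, mul_zero]
    · intro hc
      exact absurd (Finset.mem_univ _) hc

end hash

/-- **The complement of the rank one constraint systems is a conjunction of hash conditions.** -/
theorem rcs_ndblocks : NDBlocks (fun y => ¬ RCS y) := by
  intro N hN
  have hb := bm_le N
  refine ⟨pos N (bm N) (2 * bm N + 1) 1 (by omega) (by omega), fun b b' l l' => pos_inj _ _, ?_⟩
  intro r hr u v c σ
  refine ⟨word N (insRn (bm N) (2 * bm N) (4 * bm N + 1) (aF u σ) (aF v σ) (cF (bm N) c σ)), fun X => ?_⟩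
  show ¬ RCS _ ↔ _
  rw [wd_word, rcs_iff]
  have h := sysN_iff (n := dim N) (M := 2 * bm N) (K := 4 * bm N + 1) hN (by omega) (by omega) (aF u σ)
    (aF v σ) (cF (bm N) c σ) X
  constructor
  · intro h1 b
    by_contra hc
    obtain ⟨w, hw, hw1⟩ := (hash_iff u v c σ (M := 2 * bm N) (by omega) (X b)).2 hc
    exact h1 (h.2 ⟨b, w, hw, hw1⟩)
  · intro h1 h2
    obtain ⟨b, w, hw, hw1⟩ := h.1 h2
    exact (hash_iff u v c σ (M := 2 * bm N) (by omega) (X b)).1 ⟨w, hw, hw1⟩ (h1 b)

end Pool.Agent.KMN
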